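import Pool.Agent.Helper61.Tri.Goals2

/-!
MP_5b3c48_co: the final statement from its parts.
-/

set_option autoImplicit false

open Finset SimpleGraph

namespace Pool.Agent.Helper61.Tri

noncomputable section

open scoped Classical

private theorem core (hTri : TriStr) (n s : ℕ) (κ : Kind)
    (hn2 : ∀ (V : Type) [Fintype V], n ≤ Fintype.card V →
      ∀ G : SimpleGraph V, ¬ Has κ s G → (ot G).card ≤ 6 * ff κ s (Fintype.card V) ∧
      ((ot G).card = 6 * ff κ s (Fintype.card V) →
        Str κ G s ((Fintype.card V - s) / 2) ((Fintype.card V - s + 1) / 2)))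
    {W : Type} (F : SimpleGraph W) (G : SimpleGraph (Fin n))
    (hs2 : 2 ≤ s)
    (hF : F.Free G) (hBr : ∀ G' : SimpleGraph (Fin n), Has κ s G' → ¬ F.Free G')
    (hG : (ot G).card = 6 * ff κ s n)
    (hiso : ∀ G' : SimpleGraph (Fin n), Str κ G' s ((n - s) / 2) ((n - s + 1) / 2) →
      Nonempty (G' ≃g G)) : IsUniqueExtremal n F G := by
  refine ⟨hF, fun G' hG' => ?_⟩
  have hno : ¬ Has κ s G' := fun h => hBr G' h hG'
  have h1 := hn2 (Fin n) (by simp) G' hno
  simp only [Fintype.card_fin] at h1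
  have t1 := (hTri (Fin n) G' s 0 0 hs2).1
  have t2 := (hTri (Fin n) G s 0 0 hs2).1
  refine ⟨by omega, fun he => hiso G' (h1.2 (by omega))⟩

theorem final : Main → TriStr → IsoStr → FreeStr → Bridge → Final := by
  intro hMain hTri hIso hFree hBr k hk
  obtain ⟨hIsoO, hIsoE, hHO, hHE⟩ := hIso
  set s := (k - 1) / 2 with hs
  have hs2 : 2 ≤ s := by omega
  obtain ⟨nP, hP⟩ := hMain s hs2 Kind.P
  obtain ⟨nCe, hCe⟩ := hMain s hs2 Kind.Ce
  obtain ⟨nCo, hCo⟩ := hMain s hs2 Kind.Co
  obtain ⟨nPo, hPo⟩ := hMain s hs2 Kind.Po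
  refine ⟨nP + nCe + nCo + nPo + s, fun n hn G hG => ?_⟩
  have hsn : s ≤ n := by omega
  have hab : (n - s) / 2 + (n - s + 1) / 2 = n - s := by omega
  rcases hG with ⟨hodd, hG⟩ | ⟨heven, hG⟩
  · have hk' : k = 2 * s + 1 := by
      obtain ⟨m, hm⟩ := hodd; omega
    have hstr := hHO s n G hsn hG
    have hcard : (ot G).card = 6 * fodd s n := by
      have := (hTri (Fin n) G s _ _ hs2).2.1 hstr
      rw [this, hab]; rfl
    have hfr := (hFree (Fin n) G s _ _ (by omega)).1 hstr
    constructor
    · rw [hk']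
      refine core hTri n s Kind.Co (fun V _ hV => hCo V (by omega)) _ G hs2 hfr.1 ?_ hcard ?_
      · intro G' h
        exact (hBr (Fin n) G' (2 * s + 1) (by omega)).1 h
      · intro G' h
        exact hIsoO _ _ G' G s _ _ h hstr
    · rw [hk']
      refine core hTri n s Kind.Po (fun V _ hV => hPo V (by omega)) _ G hs2 hfr.2 ?_ hcard ?_
      · intro G' h
        exact (hBr (Fin n) G' (2 * s + 1) (by omega)).2 h
      · intro G' h
        exact hIsoO _ _ G' G s _ _ h hstr
  · have hk' : k = 2 * s + 2 := by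
      obtain ⟨m, hm⟩ := heven; omega
    have hstr := hHE s n G hsn hG
    have hcard : (ot G).card = 6 * feven s n := by
      have := (hTri (Fin n) G s _ _ hs2).2.2 hstr
      rw [this, hab]; rfl
    have hfr := (hFree (Fin n) G s _ _ (by omega)).2 hstr
    constructor
    · rw [hk']
      refine core hTri n s Kind.Ce (fun V _ hV => hCe V (by omega)) _ G hs2 hfr.1 ?_ hcard ?_
      · intro G' h
        exact (hBr (Fin n) G' (2 * s + 2) (by omega)).1 h
      · intro G' h
        exact hIsoE _ _ G' G s _ _ h hstr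
    · rw [hk']
      refine core hTri n s Kind.P (fun V _ hV => hP V (by omega)) _ G hs2 hfr.2 ?_ hcard ?_
      · intro G' h
        exact (hBr (Fin n) G' (2 * s + 2) (by omega)).2 h
      · intro G' h
        exact hIsoE _ _ G' G s _ _ h hstr

end

end Pool.Agent.Helper61.Tri

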