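import Pool.Agent.Helper61.Tri.Goals2

/-!
MP_5b3c48_co: packet ISOSTR.
-/

set_option autoImplicit false

open Finset SimpleGraph

namespace Pool.Agent.Helper61.Tri

noncomputable section

open scoped Classical

private theorem iso_of_col {V W C : Type} [DecidableEq C] [Fintype V] [Fintype W] (G : SimpleGraph V)
    (H : SimpleGraph W)
    (f : V → C) (g : W → C) (R : C → C → Prop)
    (hG : ∀ u v, G.Adj u v ↔ u ≠ v ∧ R (f u) (f v))
    (hH : ∀ u v, H.Adj u v ↔ u ≠ v ∧ R (g u) (g v))
    (hc : ∀ c, (univ.filter fun v => f v = c).card = (univ.filter fun v => g v = c).card) :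
    Nonempty (G ≃g H) := by
  have e : ∀ c, Nonempty ({a // f a = c} ≃ {b // g b = c}) := by
    intro c
    refine ⟨Fintype.equivOfCardEq ?_⟩
    rw [Fintype.card_subtype, Fintype.card_subtype]; exact hc c
  let e' := fun c => Classical.choice (e c)
  let E := Equiv.ofFiberEquiv e'
  have hE : ∀ v, g (E v) = f v := Equiv.ofFiberEquiv_map e'
  refine ⟨⟨E, ?_⟩⟩
  intro u v
  rw [hG, hH, hE, hE]
  simp [E.injective.ne_iff]

private def c3 {V : Type} (X A : Finset V) (v : V) : Fin 3 :=
  if v ∈ X then 0 else if v ∈ A then 1 else 2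

private def R3 (c d : Fin 3) : Prop := c = 0 ∨ d = 0 ∨ (c = 1 ∧ d = 2) ∨ (c = 2 ∧ d = 1)

private theorem c3_spec {V : Type} {X A B : Finset V} (hXA : Disjoint X A) (hXB : Disjoint X B)
    (hAB : Disjoint A B) (hc : ∀ v, v ∈ X ∨ v ∈ A ∨ v ∈ B) (v : V) :
    (c3 X A v = 0 ↔ v ∈ X) ∧ (c3 X A v = 1 ↔ v ∈ A) ∧ (c3 X A v = 2 ↔ v ∈ B) := by
  have h1 : v ∈ X → v ∉ A := fun h => Finset.disjoint_left.1 hXA h
  have h2 : v ∈ X → v ∉ B := fun h => Finset.disjoint_left.1 hXB h
  have h3 : v ∈ A → v ∉ B := fun h => Finset.disjoint_left.1 hAB h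
  have h4 := hc v
  unfold c3
  by_cases hX : v ∈ X
  · simp [hX, h1 hX, h2 hX]
  · by_cases hA : v ∈ A
    · simp [hX, hA, h3 hA]
    · have : v ∈ B := by tauto
      simp [hX, hA, this]

private theorem c3_card {V : Type} [Fintype V] {X A B : Finset V} (hXA : Disjoint X A)
    (hXB : Disjoint X B)
    (hAB : Disjoint A B) (hc : ∀ v, v ∈ X ∨ v ∈ A ∨ v ∈ B) (c : Fin 3) :
    (univ.filter fun v => c3 X A v = c).card = if c = 0 then X.card else if c = 1 then A.card else
      B.card := by
  have h := c3_spec hXA hXB hAB hc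
  fin_cases c
  · simp only [Fin.zero_eta, if_true]
    congr 1
    ext v
    simp [(h v).1]
  · simp only [Fin.mk_one, if_true]
    rw [if_neg (by decide)]
    congr 1
    ext v
    simp [(h v).2.1]
  · rw [if_neg (by decide), if_neg (by decide)]
    congr 1
    ext v
    simp only [Finset.mem_filter, Finset.mem_univ, true_and]
    exact (h v).2.2

private def c5 {V : Type} (X A : Finset V) (p q : V) (v : V) : Fin 5 :=
  if v ∈ X then 0 else if v = p then 1 else if v = q then 2 else if v ∈ A then 3 else 4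

private def R5 (c d : Fin 5) : Prop := c = 0 ∨ d = 0 ∨ ((c = 1 ∨ c = 2 ∨ c = 3) ∧ d = 4) ∨
  (c = 4 ∧ (d = 1 ∨ d = 2 ∨ d = 3)) ∨ (c = 1 ∧ d = 2) ∨ (c = 2 ∧ d = 1)

private theorem c5_spec {V : Type} {X A B : Finset V} (hXA : Disjoint X A) (hXB : Disjoint X B)
    (hAB : Disjoint A B) (hc : ∀ v, v ∈ X ∨ v ∈ A ∨ v ∈ B) {p q : V} (hp : p ∈ A) (hq : q ∈ A)
    (hpq : p ≠ q) (v : V) :
    (c5 X A p q v = 0 ↔ v ∈ X) ∧ (c5 X A p q v = 1 ↔ v = p) ∧ (c5 X A p q v = 2 ↔ v = q) ∧
    (c5 X A p q v = 3 ↔ v ∈ (A.erase p).erase q) ∧ (c5 X A p q v = 4 ↔ v ∈ B) ∧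
    ((c5 X A p q v = 1 ∨ c5 X A p q v = 2 ∨ c5 X A p q v = 3) ↔ v ∈ A) := by
  have h1 : v ∈ X → v ∉ A := fun h => Finset.disjoint_left.1 hXA h
  have h2 : v ∈ X → v ∉ B := fun h => Finset.disjoint_left.1 hXB h
  have h3 : v ∈ A → v ∉ B := fun h => Finset.disjoint_left.1 hAB h
  have h4 := hc v
  unfold c5
  by_cases hX : v ∈ X
  · have hvp : v ≠ p := by rintro rfl; exact h1 hX hp
    have hvq : v ≠ q := by rintro rfl; exact h1 hX hq
    simp [hX, h1 hX, h2 hX, hvp, hvq]
  · by_cases hvp : v = p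
    · subst hvp
      simp [hX, hp, h3 hp, hpq]
    · by_cases hvq : v = q
      · subst hvq
        simp [hX, hq, h3 hq, hvp]
      · by_cases hA : v ∈ A
        · simp [hX, hA, h3 hA, hvp, hvq]
        · have : v ∈ B := by tauto
          simp [hX, hA, this, hvp, hvq]

private theorem c5_card {V : Type} [Fintype V] {X A B : Finset V} (hXA : Disjoint X A)
    (hXB : Disjoint X B)
    (hAB : Disjoint A B) (hc : ∀ v, v ∈ X ∨ v ∈ A ∨ v ∈ B) {p q : V} (hp : p ∈ A) (hq : q ∈ A)
    (hpq : p ≠ q) (c : Fin 5) :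
    (univ.filter fun v => c5 X A p q v = c).card = if c = 0 then X.card else if c = 1 then 1 else
      if c = 2 then 1 else if c = 3 then A.card - 1 - 1 else B.card := by
  have h := c5_spec hXA hXB hAB hc hp hq hpq
  have key : ∀ (c : Fin 5) (S : Finset V), (∀ v, c5 X A p q v = c ↔ v ∈ S) →
      (univ.filter fun v => c5 X A p q v = c).card = S.card := by
    intro c S hS
    congr 1
    ext v
    simp only [Finset.mem_filter, Finset.mem_univ, true_and]
    exact hS v
  have c0 := key 0 X (fun v => (h v).1)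
  have c1 := key 1 {p} (fun v => by rw [Finset.mem_singleton]; exact (h v).2.1)
  have c2 := key 2 {q} (fun v => by rw [Finset.mem_singleton]; exact (h v).2.2.1)
  have c3 := key 3 _ (fun v => (h v).2.2.2.1)
  have c4 := key 4 B (fun v => (h v).2.2.2.2.1)
  rw [Finset.card_singleton] at c1 c2
  rw [Finset.card_erase_of_mem (Finset.mem_erase.2 ⟨hpq.symm, hq⟩),
    Finset.card_erase_of_mem hp] at c3
  fin_cases c
  · exact c0
  · exact c1
  · exact c2
  · exact c3
  · exact c4

private theorem card_emb {n : ℕ} {T : Type} {α : Type} [Fintype α] (e : Fin n ≃ T)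
    (f : α → T) (hf : Function.Injective f) :
    (univ.filter fun v : Fin n => ∃ i, e v = f i).card = Fintype.card α := by
  rw [← Finset.card_univ (α := α), ← Finset.card_image_of_injective univ
    (f := fun i => e.symm (f i)) (e.symm.injective.comp hf)]
  congr 1
  ext v
  simp only [Finset.mem_filter, Finset.mem_univ, true_and, Finset.mem_image]
  constructor
  · rintro ⟨i, hi⟩
    exact ⟨i, by rw [← hi]; simp⟩
  · rintro ⟨i, hi⟩
    exact ⟨i, by rw [← hi]; simp⟩

theorem isostr : IsoStr := by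
  refine ⟨?_, ?_, ?_, ?_⟩
  · rintro V W _ _ G H s a b ⟨X, A, B, hX, hA, hB, dXA, dXB, dAB, hc, hadj⟩
      ⟨X', A', B', hX', hA', hB', dXA', dXB', dAB', hc', hadj'⟩
    refine iso_of_col G H (c3 X A) (c3 X' A') R3 ?_ ?_ ?_
    · intro u v
      rw [hadj]
      have h1 := c3_spec dXA dXB dAB hc u
      have h2 := c3_spec dXA dXB dAB hc v
      unfold R3
      rw [h1.1, h1.2.1, h1.2.2, h2.1, h2.2.1, h2.2.2]
    · intro u v
      rw [hadj']
      have h1 := c3_spec dXA' dXB' dAB' hc' u
      have h2 := c3_spec dXA' dXB' dAB' hc' v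
      unfold R3
      rw [h1.1, h1.2.1, h1.2.2, h2.1, h2.2.1, h2.2.2]
    · intro c
      rw [c3_card dXA dXB dAB hc, c3_card dXA' dXB' dAB' hc', hX, hX', hA, hA', hB, hB']
  · rintro V W _ _ G H s a b ⟨X, A, B, hX, hA, hB, dXA, dXB, dAB, hc, p, hp, q, hq, hpq, hadj⟩
      ⟨X', A', B', hX', hA', hB', dXA', dXB', dAB', hc', p', hp', q', hq', hpq', hadj'⟩
    refine iso_of_col G H (c5 X A p q) (c5 X' A' p' q') R5 ?_ ?_ ?_
    · intro u v
      rw [hadj]
      obtain ⟨h0, h1, h2, h3, h4, h5⟩ := c5_spec dXA dXB dAB hc hp hq hpq u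
      obtain ⟨k0, k1, k2, k3, k4, k5⟩ := c5_spec dXA dXB dAB hc hp hq hpq v
      unfold R5
      rw [h5, k5, h0, k0, h1, k1, h2, k2, h4, k4]
    · intro u v
      rw [hadj']
      obtain ⟨h0, h1, h2, h3, h4, h5⟩ := c5_spec dXA' dXB' dAB' hc' hp' hq' hpq' u
      obtain ⟨k0, k1, k2, k3, k4, k5⟩ := c5_spec dXA' dXB' dAB' hc' hp' hq' hpq' v
      unfold R5
      rw [h5, k5, h0, k0, h1, k1, h2, k2, h4, k4]
    · intro c
      rw [c5_card dXA dXB dAB hc hp hq hpq, c5_card dXA' dXB' dAB' hc' hp' hq' hpq',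
        hX, hX', hA, hA', hB, hB']
  · rintro s n G hs ⟨φ⟩
    have hn : n + 1 - (s + 1) = n - s := by omega
    refine ⟨univ.filter fun v => ∃ i, φ v = Sum.inl i,
      univ.filter fun v => ∃ i, φ v = Sum.inr (Sum.inl i),
      univ.filter fun v => ∃ i, φ v = Sum.inr (Sum.inr i), ?_, ?_, ?_, ?_, ?_, ?_, ?_, ?_⟩
    · have := card_emb (α := Fin (s + 1 - 1)) φ.toEquiv (Sum.inl : _ → _) Sum.inl_injective
      simpa using this
    · have := card_emb (α := Fin ((n + 1 - (s + 1)) / 2)) φ.toEquiv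
        (fun i => Sum.inr (Sum.inl i)) (Sum.inr_injective.comp Sum.inl_injective)
      convert this.trans (by rw [Fintype.card_fin, hn])
      rfl
    · have := card_emb (α := Fin ((n + 1 - (s + 1) + 1) / 2)) φ.toEquiv
        (fun i => Sum.inr (Sum.inr i)) (Sum.inr_injective.comp Sum.inr_injective)
      convert this.trans (by rw [Fintype.card_fin, hn])
      rfl
    · rw [Finset.disjoint_left]
      intro v h1 h2
      simp only [Finset.mem_filter, Finset.mem_univ, true_and] at h1 h2
      obtain ⟨i, hi⟩ := h1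
      obtain ⟨j, hj⟩ := h2
      rw [hi] at hj; cases hj
    · rw [Finset.disjoint_left]
      intro v h1 h2
      simp only [Finset.mem_filter, Finset.mem_univ, true_and] at h1 h2
      obtain ⟨i, hi⟩ := h1
      obtain ⟨j, hj⟩ := h2
      rw [hi] at hj; cases hj
    · rw [Finset.disjoint_left]
      intro v h1 h2
      simp only [Finset.mem_filter, Finset.mem_univ, true_and] at h1 h2
      obtain ⟨i, hi⟩ := h1
      obtain ⟨j, hj⟩ := h2
      rw [hi] at hj; cases hj
    · intro v
      simp only [Finset.mem_filter, Finset.mem_univ, true_and]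
      rcases h : φ v with i | i | i
      · left; exact ⟨i, rfl⟩
      · right; left; exact ⟨i, rfl⟩
      · right; right; exact ⟨i, rfl⟩
    · intro u v
      simp only [Finset.mem_filter, Finset.mem_univ, true_and]
      rw [← φ.map_adj_iff, ← φ.injective.ne_iff]
      generalize φ u = x
      generalize φ v = y
      rcases x with i | i | i <;> rcases y with j | j | j <;> simp [joinG]
  · rintro s n G hs ⟨x, y, hxy, ⟨φ⟩⟩
    have hn : n + 1 - (s + 1) = n - s := by omega
    refine ⟨univ.filter fun v => ∃ i, φ v = Sum.inl i,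
      univ.filter fun v => ∃ i, φ v = Sum.inr (Sum.inl i),
      univ.filter fun v => ∃ i, φ v = Sum.inr (Sum.inr i), ?_, ?_, ?_, ?_, ?_, ?_, ?_,
      φ.symm (Sum.inr (Sum.inl x)), ?_, φ.symm (Sum.inr (Sum.inl y)), ?_, ?_, ?_⟩
    · have := card_emb (α := Fin (s + 1 - 1)) φ.toEquiv (Sum.inl : _ → _) Sum.inl_injective
      simpa using this
    · have := card_emb (α := Fin ((n + 1 - (s + 1)) / 2)) φ.toEquiv
        (fun i => Sum.inr (Sum.inl i)) (Sum.inr_injective.comp Sum.inl_injective)
      convert this.trans (by rw [Fintype.card_fin, hn])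
      rfl
    · have := card_emb (α := Fin ((n + 1 - (s + 1) + 1) / 2)) φ.toEquiv
        (fun i => Sum.inr (Sum.inr i)) (Sum.inr_injective.comp Sum.inr_injective)
      convert this.trans (by rw [Fintype.card_fin, hn])
      rfl
    · rw [Finset.disjoint_left]
      intro v h1 h2
      simp only [Finset.mem_filter, Finset.mem_univ, true_and] at h1 h2
      obtain ⟨i, hi⟩ := h1
      obtain ⟨j, hj⟩ := h2
      rw [hi] at hj; cases hj
    · rw [Finset.disjoint_left]
      intro v h1 h2
      simp only [Finset.mem_filter, Finset.mem_univ, true_and] at h1 h2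
      obtain ⟨i, hi⟩ := h1
      obtain ⟨j, hj⟩ := h2
      rw [hi] at hj; cases hj
    · rw [Finset.disjoint_left]
      intro v h1 h2
      simp only [Finset.mem_filter, Finset.mem_univ, true_and] at h1 h2
      obtain ⟨i, hi⟩ := h1
      obtain ⟨j, hj⟩ := h2
      rw [hi] at hj; cases hj
    · intro v
      simp only [Finset.mem_filter, Finset.mem_univ, true_and]
      rcases h : φ v with i | i | i
      · left; exact ⟨i, rfl⟩
      · right; left; exact ⟨i, rfl⟩
      · right; right; exact ⟨i, rfl⟩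
    · simp
    · simp
    · intro h
      have := φ.symm.injective h
      simp at this
      exact hxy this
    · intro u v
      simp only [Finset.mem_filter, Finset.mem_univ, true_and]
      rw [← φ.map_adj_iff, ← φ.injective.ne_iff]
      have e1 : ∀ (w : Fin n) z, w = φ.symm z ↔ φ w = z := by
        intro w z
        constructor
        · rintro rfl; simp
        · rintro rfl; simp
      rw [e1, e1, e1, e1]
      generalize φ u = x
      generalize φ v = y
      rcases x with i | i | i <;> rcases y with j | j | j <;> simp [joinG, edge_adj] <;> tauto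

end

end Pool.Agent.Helper61.Tri

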