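import Pool.Agent.Helper61.Tri.Goals2

set_option autoImplicit false

open Finset SimpleGraph
open Pool.Agent.Helper61.Tri

namespace Pool.Agent.Helper61.Tri

lemma half_sq (m : ℕ) : m * m ≤ 4 * ((m / 2) * ((m + 1) / 2)) + 1 := by
  rcases Nat.even_or_odd' m with ⟨k, rfl | rfl⟩
  · have h1 : 2 * k / 2 = k := by omega
    have h2 : (2 * k + 1) / 2 = k := by omega
    rw [h1, h2]; nlinarith
  · have h1 : (2 * k + 1) / 2 = k := by omega
    have h2 : (2 * k + 1 + 1) / 2 = k + 1 := by omega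
    rw [h1, h2]; nlinarith

lemma half_step (m : ℕ) : ((m + 1) / 2) * ((m + 1 + 1) / 2) = (m / 2) * ((m + 1) / 2) + (m + 1) / 2 := by
  rcases Nat.even_or_odd' m with ⟨k, rfl | rfl⟩
  · have h1 : (2 * k + 1) / 2 = k := by omega
    have h2 : (2 * k + 1 + 1) / 2 = k + 1 := by omega
    have h3 : 2 * k / 2 = k := by omega
    rw [h1, h2, h3]; ring
  · have h1 : (2 * k + 1) / 2 = k := by omega
    have h2 : (2 * k + 1 + 1) / 2 = k + 1 := by omega
    have h3 : (2 * k + 1 + 1 + 1) / 2 = k + 1 := by omega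
    rw [h1, h2, h3]; ring

lemma fodd_mono (s : ℕ) : Monotone (fodd s) := by
  intro a b h
  unfold fodd
  have h1 : (a - s) / 2 ≤ (b - s) / 2 := by omega
  have h2 : (a - s + 1) / 2 ≤ (b - s + 1) / 2 := by omega
  have h3 : a - s ≤ b - s := by omega
  gcongr

lemma feven_mono (s : ℕ) : Monotone (feven s) := by
  intro a b h
  unfold feven
  have h1 := fodd_mono s h
  have h2 : (a - s + 1) / 2 ≤ (b - s + 1) / 2 := by omega
  omega

lemma ff_mono (κ : Kind) (s : ℕ) : Monotone (ff κ s) := by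
  cases κ
  · exact feven_mono s
  · exact feven_mono s
  · exact fodd_mono s
  · exact fodd_mono s

lemma fodd_diff (s m : ℕ) : fodd s (s + m) + s * ((m + 1) / 2) ≤ fodd s (s + m + 1) := by
  unfold fodd
  have e1 : s + m - s = m := by omega
  have e2 : s + m + 1 - s = m + 1 := by omega
  rw [e1, e2, half_step]
  nlinarith [Nat.zero_le (s * (s - 1) / 2)]

lemma fodd_diff' (s n : ℕ) (h : s + 1 ≤ n) :
    s * (n - s - 1) ≤ 2 * (fodd s n - fodd s (n - 1)) := by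
  obtain ⟨m, rfl⟩ : ∃ m, n = s + m + 1 := ⟨n - s - 1, by omega⟩
  have h1 := fodd_diff s m
  have e1 : s + m + 1 - 1 = s + m := by omega
  have e2 : s + m + 1 - s - 1 = m := by omega
  rw [e1, e2]
  have h2 : m ≤ 2 * ((m + 1) / 2) := by omega
  have h3 : s * m ≤ s * (2 * ((m + 1) / 2)) := Nat.mul_le_mul_left _ h2
  have h4 : s * (2 * ((m + 1) / 2)) = 2 * (s * ((m + 1) / 2)) := by ring
  omega

lemma feven_diff' (s n : ℕ) (h : s + 1 ≤ n) :
    s * (n - s - 1) ≤ 2 * (feven s n - feven s (n - 1)) := by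
  have h1 := fodd_diff' s n h
  have h2 : fodd s (n - 1) ≤ fodd s n := fodd_mono s (by omega)
  unfold feven
  have h3 : (n - 1 - s + 1) / 2 ≤ (n - s + 1) / 2 := by omega
  omega

lemma fodd_lower (s n : ℕ) (h : s ≤ n) :
    (s : ℝ) * (((n : ℝ) - s) ^ 2 - 1) / 4 + (s : ℝ) * (s - 1) / 2 * ((n : ℝ) - s) ≤ fodd s n := by
  obtain ⟨m, rfl⟩ : ∃ m, n = s + m := ⟨n - s, by omega⟩
  have hh := half_sq m
  have e1 : s + m - s = m := by omega
  have hf : s * ((m / 2) * ((m + 1) / 2)) + s * (s - 1) / 2 * m ≤ fodd s (s + m) := by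
    unfold fodd
    rw [e1]
    omega
  have hhR : (m : ℝ) * m ≤ 4 * (((m / 2 : ℕ) : ℝ) * (((m + 1) / 2 : ℕ) : ℝ)) + 1 := by
    exact_mod_cast hh
  have hs0 : (0 : ℝ) ≤ s := Nat.cast_nonneg s
  have hfR : (s : ℝ) * (((m / 2 : ℕ) : ℝ) * (((m + 1) / 2 : ℕ) : ℝ)) +
      ((s * (s - 1) / 2 : ℕ) : ℝ) * m ≤ (fodd s (s + m) : ℝ) := by exact_mod_cast hf
  have hch : ((s * (s - 1) / 2 : ℕ) : ℝ) = (s : ℝ) * (s - 1) / 2 := by
    have h2 : 2 ∣ s * (s - 1) := by
      rcases Nat.eq_zero_or_pos s with rfl | hpos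
      · simp
      · obtain ⟨k, rfl⟩ : ∃ k, s = k + 1 := ⟨s - 1, by omega⟩
        simp only [Nat.add_sub_cancel]
        rw [mul_comm]
        exact (Nat.even_mul_succ_self k).two_dvd
    rw [Nat.cast_div h2 (by norm_num)]
    rcases Nat.eq_zero_or_pos s with rfl | hpos
    · simp
    · rw [Nat.cast_mul, Nat.cast_sub hpos]
      norm_num
  rw [hch] at hfR
  have e2 : (((s + m : ℕ) : ℝ) - s) = m := by push_cast; ring
  rw [e2]
  have h5 : (s : ℝ) * ((m : ℝ) * m - 1) ≤ s * (4 * (((m / 2 : ℕ) : ℝ) * (((m + 1) / 2 : ℕ) : ℝ))) := by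
    apply mul_le_mul_of_nonneg_left _ hs0
    linarith
  nlinarith

lemma st_cond (s : ℕ) (hs : 2 ≤ s) (δ : ℝ) (hδ : 0 < δ) :
    ∃ n0 : ℕ, ∀ n : ℕ, n0 ≤ n → s ≤ n ∧
      (3 * (s : ℝ) / 2 - δ) * (n : ℝ) ^ 2 ≤ 6 * (fodd s n : ℝ) := by
  obtain ⟨n0, hn0⟩ := exists_nat_ge (3 * (s : ℝ) ^ 2 / δ)
  refine ⟨max n0 s, fun n hn => ⟨le_trans (le_max_right _ _) hn, ?_⟩⟩
  have hns : s ≤ n := le_trans (le_max_right _ _) hn
  have h1 : (3 * (s : ℝ) ^ 2 / δ) ≤ n := by
    refine le_trans hn0 ?_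
    exact_mod_cast le_trans (le_max_left _ _) hn
  have h2 : 3 * (s : ℝ) ^ 2 ≤ δ * n := by
    rw [div_le_iff₀ hδ] at h1
    linarith
  have h3 := fodd_lower s n hns
  have hsR : (2 : ℝ) ≤ s := by exact_mod_cast hs
  have hnR : (s : ℝ) ≤ n := by exact_mod_cast hns
  have h4 : 3 * (s : ℝ) ^ 2 * n ≤ δ * n * n := by
    apply mul_le_mul_of_nonneg_right h2
    linarith
  have h5 : 0 ≤ (s : ℝ) * (s - 1) / 2 * ((n : ℝ) - s) := by
    apply mul_nonneg
    · nlinarith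
    · linarith
  nlinarith [mul_nonneg (by linarith : (0:ℝ) ≤ s) (by nlinarith : (0:ℝ) ≤ (s:ℝ)^2 - 1)]

lemma odd_case (hST : ST) (hUO : UOdd) (hFO : FOdd) (s : ℕ) (hs : 2 ≤ s) (κ κ' : Kind)
    (hκ : κ = Kind.Po ∨ κ = Kind.Co) (hκ' : κ' ≠ Kind.Po)
    (himp : ∀ (V : Type) (G : SimpleGraph V), Has κ' s G → Has κ s G) :
    ∃ n1 : ℕ, ∀ (V : Type) [Fintype V], n1 ≤ Fintype.card V → ∀ G : SimpleGraph V,
      ¬ Has κ s G → 6 * fodd s (Fintype.card V) ≤ (ot G).card →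
      (∀ v, 2 * (fodd s (Fintype.card V) - fodd s (Fintype.card V - 1)) ≤ (tr G v).card) →
      (ot G).card = 6 * fodd s (Fintype.card V) ∧
        StrOdd G s ((Fintype.card V - s) / 2) ((Fintype.card V - s + 1) / 2) := by
  obtain ⟨ε, hε, n1, h1⟩ := hUO s hs κ hκ ((s : ℝ) * (s + 1))
  obtain ⟨n2, h2⟩ := hFO s hs κ hκ
  obtain ⟨δ, hδ, n3, h3⟩ := hST s hs κ' hκ' ε hε
  obtain ⟨n4, h4⟩ := st_cond s hs δ hδ
  refine ⟨max (max n1 n2) (max (max n3 n4) (s + 1)), ?_⟩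
  intro V _ hV G hG hot htr
  have hV1 : n1 ≤ Fintype.card V := by omega
  have hV2 : n2 ≤ Fintype.card V := by omega
  have hV3 : n3 ≤ Fintype.card V := by omega
  have hV4 : n4 ≤ Fintype.card V := by omega
  have hV5 : s + 1 ≤ Fintype.card V := by omega
  have hotR : 6 * (fodd s (Fintype.card V) : ℝ) ≤ ((ot G).card : ℝ) := by exact_mod_cast hot
  obtain ⟨X, hX, hU, hd⟩ := h3 V hV3 G (fun h => hG (himp V G h))
    (le_trans (h4 _ hV4).2 hotR)
  have hUe : Us G X = ∅ := by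
    refine h1 V hV1 G X hG hX hU hd ?_
    intro v
    have h5 := htr v
    have h6 := fodd_diff' s _ hV5
    have h7 : s * (Fintype.card V - s - 1) ≤ (tr G v).card := le_trans h6 h5
    have h8 : ((s * (Fintype.card V - s - 1) : ℕ) : ℝ) ≤ ((tr G v).card : ℝ) := by
      exact_mod_cast h7
    refine le_trans (le_of_eq ?_) h8
    rw [Nat.cast_mul, Nat.sub_sub, Nat.cast_sub hV5]
    push_cast
    ring
  obtain ⟨h9, h10⟩ := h2 V hV2 G X hG hX hUe
  have h11 : (ot G).card = 6 * fodd s (Fintype.card V) := le_antisymm h9 hot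
  exact ⟨h11, h10 h11⟩

lemma even_case (hST : ST) (hUE : UEven) (hFE : FEven) (s : ℕ) (hs : 2 ≤ s) (κ : Kind)
    (hκ : κ = Kind.P ∨ κ = Kind.Ce) :
    ∃ n1 : ℕ, ∀ (V : Type) [Fintype V], n1 ≤ Fintype.card V → ∀ G : SimpleGraph V,
      ¬ Has κ s G → 6 * feven s (Fintype.card V) ≤ (ot G).card →
      (∀ v, 2 * (feven s (Fintype.card V) - feven s (Fintype.card V - 1)) ≤ (tr G v).card) →
      (ot G).card = 6 * feven s (Fintype.card V) ∧
        StrEven G s ((Fintype.card V - s) / 2) ((Fintype.card V - s + 1) / 2) := by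
  have hκ' : κ ≠ Kind.Po := by rcases hκ with rfl | rfl <;> simp
  obtain ⟨ε, hε, n1, h1⟩ := hUE s hs κ hκ ((s : ℝ) * (s + 1))
  obtain ⟨n2, h2⟩ := hFE s hs κ hκ
  obtain ⟨δ, hδ, n3, h3⟩ := hST s hs κ hκ' ε hε
  obtain ⟨n4, h4⟩ := st_cond s hs δ hδ
  refine ⟨max (max n1 n2) (max (max n3 n4) (s + 1)), ?_⟩
  intro V _ hV G hG hot htr
  have hV1 : n1 ≤ Fintype.card V := by omega
  have hV2 : n2 ≤ Fintype.card V := by omega
  have hV3 : n3 ≤ Fintype.card V := by omega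
  have hV4 : n4 ≤ Fintype.card V := by omega
  have hV5 : s + 1 ≤ Fintype.card V := by omega
  have hfe : fodd s (Fintype.card V) + ((Fintype.card V - s + 1) / 2 + s)
      = feven s (Fintype.card V) := rfl
  have hotR : 6 * (fodd s (Fintype.card V) : ℝ) + 6 * (((Fintype.card V - s + 1) / 2 : ℕ) : ℝ)
      + 6 * (s : ℝ) ≤ ((ot G).card : ℝ) := by
    have : 6 * fodd s (Fintype.card V) + 6 * ((Fintype.card V - s + 1) / 2) + 6 * s
        ≤ (ot G).card := by omega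
    exact_mod_cast this
  have hpos : (0 : ℝ) ≤ (((Fintype.card V - s + 1) / 2 : ℕ) : ℝ) := Nat.cast_nonneg _
  have hspos : (0 : ℝ) ≤ (s : ℝ) := Nat.cast_nonneg _
  obtain ⟨X, hX, hU, hd⟩ := h3 V hV3 G hG (le_trans (h4 _ hV4).2 (by linarith))
  have hUe : Us G X = ∅ := by
    refine h1 V hV1 G X hG hX hU hd ?_ ?_
    · intro v
      have h5 := htr v
      have h6 := feven_diff' s _ hV5
      have h7 : s * (Fintype.card V - s - 1) ≤ (tr G v).card := le_trans h6 h5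
      have h8 : ((s * (Fintype.card V - s - 1) : ℕ) : ℝ) ≤ ((tr G v).card : ℝ) := by
        exact_mod_cast h7
      refine le_trans (le_of_eq ?_) h8
      rw [Nat.cast_mul, Nat.sub_sub, Nat.cast_sub hV5]
      push_cast
      ring
    · intro m hm
      have h12 := fodd_lower s (Fintype.card V) (by omega)
      have h13 : ((Fintype.card V : ℝ) - s) ≤ 2 * (((Fintype.card V - s + 1) / 2 : ℕ) : ℝ) := by
        have h14 : Fintype.card V ≤ 2 * ((Fintype.card V - s + 1) / 2) + s := by omega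
        have h15 : (Fintype.card V : ℝ) ≤ 2 * (((Fintype.card V - s + 1) / 2 : ℕ) : ℝ) + s := by
          exact_mod_cast h14
        linarith
      rw [← hm] at h12 h13
      have hsR : (2 : ℝ) ≤ s := by exact_mod_cast hs
      have hm0 : 0 ≤ m := by
        rw [hm]
        have : (s : ℝ) ≤ (Fintype.card V : ℝ) := by
          exact_mod_cast (by omega : s ≤ Fintype.card V)
        linarith
      nlinarith
  obtain ⟨h9, h10⟩ := h2 V hV2 G X hG hX hUe
  have h11 : (ot G).card = 6 * feven s (Fintype.card V) := le_antisymm h9 hot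
  exact ⟨h11, h10 h11⟩

theorem main : EPTools → ST → UOdd → UEven → FOdd → FEven → Reduction → Main := by
  intro hE hST hUO hUE hFO hFE hR s hs κ
  refine hR s κ (ff κ s) (fun V _ G =>
    Str κ G s ((Fintype.card V - s) / 2) ((Fintype.card V - s + 1) / 2)) (ff_mono κ s) ?_
  cases κ
  · exact even_case hST hUE hFE s hs Kind.P (Or.inl rfl)
  · exact even_case hST hUE hFE s hs Kind.Ce (Or.inr rfl)
  · exact odd_case hST hUO hFO s hs Kind.Co Kind.Co (Or.inr rfl) (by simp) (fun _ _ h => h)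
  · exact odd_case hST hUO hFO s hs Kind.Po Kind.P (Or.inl rfl) (by simp)
      (fun V G h => hE.poOfP s h)

end Pool.Agent.Helper61.Tri
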