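import Pool.Agent.Helper86.Tri.bip
import Pool.Agent.Helper11.Tri.bridge
import Pool.Agent.Helper70.Tri.ceven
import Pool.Agent.Helper31.Tri.codd
import Pool.Agent.Helper27.Tri.countx
import Pool.Agent.Helper69.Tri.e1
import Pool.Agent.Helper5.Tri.e2
import Pool.Agent.Helper49.Tri.e3
import Pool.Agent.Helper89.Tri.e4
import Pool.Agent.Helper6.Tri.e6
import Pool.Agent.Helper6.Tri.e7
import Pool.Agent.Helper65.Tri.e8
import Pool.Agent.Helper67.Tri.embd
import Pool.Agent.Helper60.Tri.eptools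
import Pool.Agent.Helper32.Tri.feven
import Pool.Agent.Helper61.Tri.final
import Pool.Agent.Helper28.Tri.fodd
import Pool.Agent.Helper56.Tri.freestr
import Pool.Agent.Helper89.Tri.inter2
import Pool.Agent.Helper25.Tri.interleave
import Pool.Agent.Helper61.Tri.isostr
import Pool.Agent.Helper70.Tri.kst
import Pool.Agent.Helper8.Tri.link
import Pool.Agent.Helper8.Tri.linkx
import Pool.Agent.Helper61.Tri.main
import Pool.Agent.Helper89.Tri.mixed
import Pool.Agent.Helper6.Tri.nearext
import Pool.Agent.Helper29.Tri.nocenter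
import Pool.Agent.Helper90.Tri.nog2grid
import Pool.Agent.Helper62.Tri.peel
import Pool.Agent.Helper27.Tri.ramsey2
import Pool.Agent.Helper33.Tri.reduction
import Pool.Agent.Helper45.Tri.removal
import Pool.Agent.Helper77.Tri.sd
import Pool.Agent.Helper86.Tri.smallg2e
import Pool.Agent.Helper9.Tri.smallg2o
import Pool.Agent.Helper70.Tri.st
import Pool.Agent.Helper85.Tri.st1
import Pool.Agent.Helper65.Tri.tfmax
import Pool.Agent.Helper90.Tri.tristr
import Pool.Agent.Helper38.Tri.u2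
import Pool.Agent.Helper8.Tri.u3
import Pool.Agent.Helper68.Tri.u3a
import Pool.Agent.Helper62.Tri.u4
import Pool.Agent.Helper49.Tri.ueven
import Pool.Agent.Helper17.Tri.uevena
import Pool.Agent.Helper40.Tri.uodd

/-!
MP_5b3c48_co: assembling the parts (packets by helpers 5, 6, 8, 9, 11, 17, 25, 27, 28, 29, 31, 32,
33, 38, 40, 45, 49, 56, 60, 61, 62, 65, 67, 68, 69, 70, 77, 85, 86, 89, 90).
-/

set_option autoImplicit false

namespace Pool.Agent.Helper61.Tri

theorem all : Final := by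
  have hR := Pool.Agent.Helper27.Tri.ramsey2
  have hSD := Pool.Agent.Helper77.Tri.sd hR
  have hK := Pool.Agent.Helper70.Tri.kst
  have hE := Pool.Agent.Helper60.Tri.eptools
  have hL := Pool.Agent.Helper8.Tri.link hE
  have hI := Pool.Agent.Helper25.Tri.interleave
  have hPe := Pool.Agent.Helper62.Tri.peel hE
  have hRe := Pool.Agent.Helper45.Tri.removal
  have hTF := Pool.Agent.Helper65.Tri.tfmax
  have hB := Pool.Agent.Helper86.Tri.bip hTF
  have h1 := Pool.Agent.Helper69.Tri.e1 hE hL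
  have h2 := Pool.Agent.Helper5.Tri.e2 hE hL
  have h3 := Pool.Agent.Helper49.Tri.e3 hE hI
  have h4 := Pool.Agent.Helper89.Tri.e4 hE hL hI
  have h6 := Pool.Agent.Helper6.Tri.e6 hE hI
  have h7 := Pool.Agent.Helper6.Tri.e7 hE hL
  have h8 := Pool.Agent.Helper65.Tri.e8 hE hL
  have hNG := Pool.Agent.Helper90.Tri.nog2grid hSD h1 h2 h3
  have hNC := Pool.Agent.Helper29.Tri.nocenter hSD h1 h2 h4
  have hM := Pool.Agent.Helper89.Tri.mixed hE hSD hNC h6
  have hSE := Pool.Agent.Helper86.Tri.smallg2e hE hK hPe hNG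
  have hSO := Pool.Agent.Helper9.Tri.smallg2o hE hK hPe hRe hM
  have hNE := Pool.Agent.Helper6.Tri.nearext
  have hU2 := Pool.Agent.Helper38.Tri.u2 hE hSD h3 h6 h7 h8
  have hU3A := Pool.Agent.Helper68.Tri.u3a hK hU2
  have hU3 := Pool.Agent.Helper8.Tri.u3 hU3A
  have hEm := Pool.Agent.Helper67.Tri.embd hE hL
  have hU4 := Pool.Agent.Helper62.Tri.u4 hU3 hEm
  have hST1 := Pool.Agent.Helper85.Tri.st1 hE hRe hPe hSE.1 hSE.2 hSO hNE hB hU3 hU4
  have hST := Pool.Agent.Helper70.Tri.st hB hEm hST1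
  have hLX := Pool.Agent.Helper8.Tri.linkx hL
  have hCO := Pool.Agent.Helper31.Tri.codd hE hLX
  have hCE := Pool.Agent.Helper70.Tri.ceven hE hLX
  have hUO := Pool.Agent.Helper40.Tri.uodd hE hPe hLX hCO
  have hUEA := Pool.Agent.Helper17.Tri.uevena hE hPe hLX hCE
  have hUE := Pool.Agent.Helper49.Tri.ueven hTF hUEA
  have hCX := Pool.Agent.Helper27.Tri.countx
  have hFO := Pool.Agent.Helper28.Tri.fodd hLX hCO hCX hTF
  have hIn := Pool.Agent.Helper89.Tri.inter2
  have hFE := Pool.Agent.Helper32.Tri.feven hLX hCE hCX hTF hIn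
  have hRd := Pool.Agent.Helper33.Tri.reduction hE
  exact final (main hE hST hUO hUE hFO hFE hRd) Pool.Agent.Helper90.Tri.tristr isostr Pool.Agent.Helper56.Tri.freestr Pool.Agent.Helper11.Tri.bridge

end Pool.Agent.Helper61.Tri

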