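import Mathlib

/-!
Definitions for MP_5b3c48_co: triangles in graphs without blown-up paths or cycles, k >= 5.
-/

set_option autoImplicit false

open Finset

namespace Pool.Agent.Helper61.Tri

noncomputable section

open scoped Classical

variable {V : Type}

/-- An expanded path with `l` core edges: core vertices `c 0, ..., c l`, apexes `a 0, ..., a (l-1)`,
the `i`-th triangle being `c i, c (i+1), a i`; all `2 l + 1` vertices are distinct. -/
def IsEP (G : SimpleGraph V) (l : ℕ) (c a : ℕ → V) : Prop :=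
  (∀ i < l, G.Adj (c i) (c (i + 1)) ∧ G.Adj (c i) (a i) ∧ G.Adj (c (i + 1)) (a i)) ∧
  (∀ i ≤ l, ∀ j ≤ l, c i = c j → i = j) ∧ (∀ i < l, ∀ j < l, a i = a j → i = j) ∧
  ∀ i ≤ l, ∀ j < l, c i ≠ a j

/-- There is an expanded path with `l` core edges from `u` to `v`, all of whose vertices lie in
`S`. -/
def EP (G : SimpleGraph V) (l : ℕ) (u v : V) (S : Finset V) : Prop :=
  ∃ c a : ℕ → V, IsEP G l c a ∧ c 0 = u ∧ c l = v ∧ (∀ i ≤ l, c i ∈ S) ∧ ∀ i < l, a i ∈ S

/-- `G` contains an expanded path with `l` core edges. -/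
def EPath (G : SimpleGraph V) (l : ℕ) : Prop := ∃ u v S, EP G l u v S

/-- `G` contains an expanded cycle with `k` core edges. -/
def ECyc (G : SimpleGraph V) (k : ℕ) : Prop :=
  ∃ u v w S, EP G (k - 1) u v S ∧ G.Adj u v ∧ G.Adj u w ∧ G.Adj v w ∧ w ∉ S

/-- The four forbidden graphs: `P` = P_{2s+2}^3, `Ce` = C_{2s+2}^3, `Co` = C_{2s+1}^3,
`Po` = P_{2s+1}^3. -/
inductive Kind
  | P
  | Ce
  | Co
  | Po

/-- `G` contains the forbidden graph of the given kind. -/
def Has (κ : Kind) (s : ℕ) (G : SimpleGraph V) : Prop :=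
  match κ with
  | Kind.P => EPath G (2 * s + 2)
  | Kind.Ce => ECyc G (2 * s + 2)
  | Kind.Co => ECyc G (2 * s + 1)
  | Kind.Po => EPath G (2 * s + 1)

variable [Fintype V]

/-- common neighbours -/
def cn (G : SimpleGraph V) (u v : V) : Finset V := univ.filter fun w => G.Adj u w ∧ G.Adj v w

/-- neighbourhood -/
def nb (G : SimpleGraph V) (v : V) : Finset V := univ.filter fun w => G.Adj v w

/-- ordered edges; `(oe G).card` is twice the number of edges -/
def oe (G : SimpleGraph V) : Finset (V × V) := univ.filter fun p => G.Adj p.1 p.2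

/-- ordered triangles; `(ot G).card` is six times the number of triangles -/
def ot (G : SimpleGraph V) : Finset (V × V × V) :=
  univ.filter fun p => G.Adj p.1 p.2.1 ∧ G.Adj p.1 p.2.2 ∧ G.Adj p.2.1 p.2.2

/-- ordered pairs forming a triangle with `v`; `(tr G v).card` is twice the number of triangles
containing `v` -/
def tr (G : SimpleGraph V) (v : V) : Finset (V × V) :=
  univ.filter fun p => G.Adj v p.1 ∧ G.Adj v p.2 ∧ G.Adj p.1 p.2

omit [Fintype V] in
/-- no triangle -/
def TF (G : SimpleGraph V) : Prop := ∀ u v w, G.Adj u v → G.Adj u w → ¬ G.Adj v w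

omit [Fintype V] in
/-- the subgraph of `G` formed by the edges inside `U` -/
def within (G : SimpleGraph V) (U : Finset V) : SimpleGraph V where
  Adj u v := G.Adj u v ∧ u ∈ U ∧ v ∈ U
  symm := ⟨fun _ _ h => ⟨h.1.symm, h.2.2, h.2.1⟩⟩
  loopless := ⟨fun _ h => G.loopless.irrefl _ h.1⟩

/-- the subgraph of `G` formed by the edges lying in at least `s+1` triangles of `G` -/
def G2 (G : SimpleGraph V) (s : ℕ) : SimpleGraph V where
  Adj u v := G.Adj u v ∧ s + 1 ≤ (cn G u v).card
  symm := ⟨fun u v h => ⟨h.1.symm, by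
    have : cn G v u = cn G u v := by ext w; simp [cn, and_comm]
    rw [this]; exact h.2⟩⟩
  loopless := ⟨fun _ h => G.loopless.irrefl _ h.1⟩

/-- `uv` is an edge of `G` in exactly `s` triangles, and the other two edges of each of these
triangles lie in at least `s+1` triangles -/
def Estar (G : SimpleGraph V) (s : ℕ) (u v : V) : Prop :=
  G.Adj u v ∧ (cn G u v).card = s ∧ ∀ y ∈ cn G u v, (G2 G s).Adj u y ∧ (G2 G s).Adj y v

omit [Fintype V] in
/-- `x i`, `w j` (`i, j < m`) span a complete bipartite graph -/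
structure Grid (G : SimpleGraph V) (m : ℕ) (x w : ℕ → V) : Prop where
  adj : ∀ i < m, ∀ j < m, G.Adj (x i) (w j)
  injx : ∀ i < m, ∀ j < m, x i = x j → i = j
  injw : ∀ i < m, ∀ j < m, w i = w j → i = j

omit [Fintype V] in
/-- `c` is adjacent to all vertices of the grid -/
def Center (G : SimpleGraph V) (m : ℕ) (x w : ℕ → V) (c : V) : Prop :=
  ∀ i < m, G.Adj (x i) c ∧ G.Adj (w i) c

omit [Fintype V] in
/-- values at positions differing in both coordinates are different -/
def DI (m : ℕ) (g : ℕ → ℕ → V) : Prop :=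
  ∀ i < m, ∀ j < m, ∀ i' < m, ∀ j' < m, i ≠ i' → j ≠ j' → g i j ≠ g i' j'

omit [Fintype V] in
/-- disjoint images -/
def DD (m : ℕ) (g h : ℕ → ℕ → V) : Prop :=
  ∀ i < m, ∀ j < m, ∀ i' < m, ∀ j' < m, g i j ≠ h i' j'

omit [Fintype V] in
/-- `g i j` is a common neighbour of `x i` and `w j`, never a grid vertex, with the property `DI` -/
structure Apex (G : SimpleGraph V) (m : ℕ) (x w : ℕ → V) (g : ℕ → ℕ → V) : Prop where
  adjx : ∀ i < m, ∀ j < m, G.Adj (x i) (g i j)
  adjw : ∀ i < m, ∀ j < m, G.Adj (w j) (g i j)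
  di : DI m g
  nx : DD m g (fun i _ => x i)
  nw : DD m g (fun _ j => w j)

end

end Pool.Agent.Helper61.Tri
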