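import Pool.Agent.Helper61.Tri.Defs

/-!
Goals for MP_5b3c48_co.  Throughout `s >= 2`, `n = card V`.
-/

set_option autoImplicit false

open Finset

namespace Pool.Agent.Helper61.Tri

noncomputable section

open scoped Classical

/-! ### General tools -/

/-- Ramsey for pairs. -/
def Ramsey2 : Prop :=
  ∀ c m : ℕ, ∃ N, ∀ χ : ℕ → ℕ → Fin (c + 1), ∃ (e : ℕ → ℕ) (a : Fin (c + 1)),
    (∀ i < m, e i < N) ∧ (∀ i j, i < j → j < m → e i < e j) ∧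
    ∀ i j, i < j → j < m → χ (e i) (e j) = a

/-- Strong dichotomy for functions on a grid: on a large subgrid every function is constant or DI,
and different functions have disjoint images. -/
def SD : Prop :=
  ∀ r m : ℕ, ∃ N, ∀ (V : Type) (f : Fin r → ℕ → ℕ → V),
    (∀ i < N, ∀ j < N, ∀ l l', l ≠ l' → f l i j ≠ f l' i j) →
    ∃ ρ γ : ℕ → ℕ, (∀ i < m, ρ i < N ∧ γ i < N) ∧
      (∀ i < m, ∀ j < m, i ≠ j → ρ i ≠ ρ j ∧ γ i ≠ γ j) ∧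
      (∀ l, (∀ i < m, ∀ j < m, ∀ i' < m, ∀ j' < m, f l (ρ i) (γ j) = f l (ρ i') (γ j')) ∨
        DI m (fun i j => f l (ρ i) (γ j))) ∧
      ∀ l l', l ≠ l' → DD m (fun i j => f l (ρ i) (γ j)) (fun i j => f l' (ρ i) (γ j))

/-- Kovari-Sos-Turan with many columns. -/
def KST : Prop :=
  ∀ (N : ℕ) (β : ℝ), 0 < β → ∃ β' : ℝ, 0 < β' ∧ ∃ n0 : ℕ, ∀ (V : Type) [Fintype V],
    n0 ≤ Fintype.card V → ∀ R : V → V → Prop,
    β * (Fintype.card V : ℝ) ^ 2 ≤ ((univ.filter fun p : V × V => R p.1 p.2).card : ℝ) →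
    ∃ (x : ℕ → V) (W : Finset V), (∀ i < N, ∀ j < N, x i = x j → i = j) ∧
      β' * (Fintype.card V : ℝ) ≤ (W.card : ℝ) ∧ ∀ i < N, ∀ w ∈ W, R (x i) w

/-- Toolkit for expanded paths. -/
structure EPTools : Prop where
  mono : ∀ {V : Type} {G G' : SimpleGraph V} {l : ℕ} {u v : V} {S S' : Finset V},
    EP G l u v S → G ≤ G' → S ⊆ S' → EP G' l u v S'
  refl : ∀ {V : Type} (G : SimpleGraph V) (u : V), EP G 0 u u {u}
  single : ∀ {V : Type} {G : SimpleGraph V} {u v a : V},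
    G.Adj u v → G.Adj u a → G.Adj v a → EP G 1 u v {u, v, a}
  symm : ∀ {V : Type} {G : SimpleGraph V} {l : ℕ} {u v : V} {S : Finset V},
    EP G l u v S → EP G l v u S
  trans : ∀ {V : Type} {G : SimpleGraph V} {l l' : ℕ} {u v w : V} {S S' : Finset V},
    EP G l u v S → EP G l' v w S' → S ∩ S' ⊆ {v} → EP G (l + l') u w (S ∪ S')
  trunc : ∀ {V : Type} {G : SimpleGraph V} {l : ℕ} {u v : V} {S : Finset V},
    EP G (l + 1) u v S → ∃ w, EP G l u w S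
  close : ∀ {V : Type} {G : SimpleGraph V} {l l' : ℕ} {u v : V} {S S' : Finset V},
    EP G l u v S → EP G l' v u S' → S ∩ S' ⊆ {u, v} → 1 ≤ l → 1 ≤ l' → ECyc G (l + l')
  /-- the vertex set can be taken of size `2 l + 1` -/
  shrink : ∀ {V : Type} {G : SimpleGraph V} {l : ℕ} {u v : V} {S : Finset V},
    EP G l u v S → ∃ S' ⊆ S, EP G l u v S' ∧ S'.card = 2 * l + 1 ∧ u ∈ S' ∧ v ∈ S'
  hasMono : ∀ {V : Type} {G G' : SimpleGraph V} (κ : Kind) (s : ℕ),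
    G ≤ G' → Has κ s G → Has κ s G'
  poOfP : ∀ {V : Type} {G : SimpleGraph V} (s : ℕ), Has Kind.P s G → Has Kind.Po s G

/-- Linking two vertices through a list of centres, avoiding a set. -/
def Link : Prop :=
  ∀ (V : Type) [Fintype V] (G : SimpleGraph V) (L : List V) (Z S : Finset V) (p q : V) (K : ℕ),
    L.Nodup → L ≠ [] → p ≠ q → p ∉ L → q ∉ L → p ∉ S → q ∉ S → (∀ d ∈ L, d ∉ S) →
    (∀ z ∈ Z, ∀ d ∈ L, G.Adj z d ∧ K ≤ (cn G z d).card) → K ≤ Z.card →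
    (∀ d, L.head? = some d → G.Adj p d ∧ K ≤ (cn G p d).card) →
    (∀ d, L.getLast? = some d → G.Adj q d ∧ K ≤ (cn G q d).card) →
    S.card + 8 * L.length + 10 ≤ K →
    ∃ S', EP G (2 * L.length) p q S' ∧ Disjoint S S'

/-- Interleaving two sequences. -/
def Interleave : Prop :=
  ∀ (V : Type) (G : SimpleGraph V) (t : ℕ) (X W A B : ℕ → V) (S : Finset V),
    (∀ i < t, G.Adj (X i) (W i) ∧ G.Adj (X i) (A i) ∧ G.Adj (W i) (A i) ∧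
      G.Adj (W i) (X (i + 1)) ∧ G.Adj (W i) (B i) ∧ G.Adj (X (i + 1)) (B i)) →
    (∀ i ≤ t, ∀ j ≤ t, X i = X j → i = j) →
    (∀ i < t, ∀ j < t, W i = W j → i = j) →
    (∀ i < t, ∀ j < t, A i = A j → i = j) →
    (∀ i < t, ∀ j < t, B i = B j → i = j) →
    (∀ i ≤ t, ∀ j < t, X i ≠ W j ∧ X i ≠ A j ∧ X i ≠ B j) →
    (∀ i < t, ∀ j < t, W i ≠ A j ∧ W i ≠ B j ∧ A i ≠ B j) →
    (∀ i ≤ t, X i ∈ S) → (∀ i < t, W i ∈ S ∧ A i ∈ S ∧ B i ∈ S) →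
    EP G (2 * t) (X 0) (X t) S

/-- Peeling: graphs without the forbidden subgraph have `O(number of edges)` triangles. -/
def Peel : Prop :=
  ∀ (s : ℕ), 1 ≤ s → ∀ (κ : Kind) (V : Type) [Fintype V] (G : SimpleGraph V), ¬ Has κ s G →
    (ot G).card ≤ (12 * s + 40) * (oe G).card

/-- Triangle removal. -/
def Removal : Prop :=
  ∀ C ε : ℝ, 0 < ε → ∃ n0 : ℕ, ∀ (V : Type) [Fintype V], n0 ≤ Fintype.card V →
    ∀ L : SimpleGraph V, ((ot L).card : ℝ) ≤ C * (Fintype.card V : ℝ) ^ 2 →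
    ∃ J : SimpleGraph V, J ≤ L ∧ TF J ∧
      ((oe L).card : ℝ) - ((oe J).card : ℝ) ≤ ε * (Fintype.card V : ℝ) ^ 2

/-- Maximum degree argument for triangle-free graphs. -/
def TFmax : Prop :=
  ∀ (V : Type) [Fintype V] (J : SimpleGraph V) (W : Finset V), TF J →
    (∀ u v, J.Adj u v → u ∈ W) → ∀ z ∈ W, (∀ v, (nb J v).card ≤ (nb J z).card) →
    (nb J z).card ≤ W.card ∧
    (oe J).card ≤ 2 * ((nb J z).card * (W.card - (nb J z).card)) ∧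
    ((oe J).card = 2 * ((nb J z).card * (W.card - (nb J z).card)) →
      ∀ u ∈ W, ∀ v ∈ W, J.Adj u v ↔ ((u ∈ nb J z ∧ v ∉ nb J z) ∨ (u ∉ nb J z ∧ v ∈ nb J z)))

/-- Bipartition of a dense triangle-free graph. -/
def Bip : Prop :=
  ∀ (V : Type) [Fintype V] (J : SimpleGraph V) (ε : ℝ), 0 ≤ ε → TF J →
    (1 / 2 - ε) * (Fintype.card V : ℝ) ^ 2 ≤ ((oe J).card : ℝ) →
    ∃ A : Finset V,
      ((univ.filter fun p : V × V => p.1 ∈ A ∧ p.2 ∉ A ∧ ¬ J.Adj p.1 p.2).card : ℝ)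
        ≤ ε * (Fintype.card V : ℝ) ^ 2 ∧
      ((univ.filter fun p : V × V => J.Adj p.1 p.2 ∧ (p.1 ∈ A ↔ p.2 ∈ A)).card : ℝ)
        ≤ ε * (Fintype.card V : ℝ) ^ 2 ∧
      (A.card : ℝ) ≤ (1 / 2 + Real.sqrt ε) * (Fintype.card V : ℝ) ∧
      ((Aᶜ).card : ℝ) ≤ (1 / 2 + Real.sqrt ε) * (Fintype.card V : ℝ)

/-! ### Embeddings in grids -/

/-- `s+1` centres. -/
def E1 : Prop :=
  ∀ (s : ℕ), 1 ≤ s → ∀ (V : Type) [Fintype V] (G : SimpleGraph V) (m : ℕ) (x w : ℕ → V),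
    40 * s + 100 ≤ m → Grid G m x w → ∀ c : Fin (s + 1) → V, Function.Injective c →
    (∀ l, Center G m x w (c l)) → Has Kind.P s G ∧ Has Kind.Ce s G ∧ Has Kind.Co s G

/-- `s` centres and one DI apex function. -/
def E2 : Prop :=
  ∀ (s : ℕ), 2 ≤ s → ∀ (V : Type) [Fintype V] (G : SimpleGraph V) (m : ℕ) (x w : ℕ → V),
    40 * s + 100 ≤ m → Grid G m x w → ∀ c : Fin s → V, Function.Injective c →
    (∀ l, Center G m x w (c l)) → ∀ g, Apex G m x w g →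
    (∀ l, DD m g (fun _ _ => c l)) → Has Kind.P s G ∧ Has Kind.Ce s G ∧ Has Kind.Co s G

/-- two DI apex functions: even kinds. -/
def E3 : Prop :=
  ∀ (s : ℕ), 1 ≤ s → ∀ (V : Type) [Fintype V] (G : SimpleGraph V) (m : ℕ) (x w : ℕ → V),
    40 * s + 100 ≤ m → Grid G m x w → ∀ g h, Apex G m x w g → Apex G m x w h → DD m g h →
    Has Kind.P s G ∧ Has Kind.Ce s G

/-- one centre and two DI apex functions: kind `Co`. -/
def E4 : Prop :=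
  ∀ (s : ℕ), 1 ≤ s → ∀ (V : Type) [Fintype V] (G : SimpleGraph V) (m : ℕ) (x w : ℕ → V),
    40 * s + 100 ≤ m → Grid G m x w → ∀ c, Center G m x w c →
    ∀ g h, Apex G m x w g → Apex G m x w h → DD m g h →
    DD m g (fun _ _ => c) → DD m h (fun _ _ => c) → Has Kind.Co s G

/-- two DI apex functions `y`, `g` and a function `z` with `z i j` adjacent to `y i j` and `w j`:
an expanded path of length `2 s` from `x 0` to `y 0 0`. -/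
def E6 : Prop :=
  ∀ (s : ℕ), 2 ≤ s → ∀ (V : Type) [Fintype V] (G : SimpleGraph V) (m : ℕ) (x w : ℕ → V),
    40 * s + 100 ≤ m → Grid G m x w → ∀ y g z : ℕ → ℕ → V, Apex G m x w y → Apex G m x w g →
    DD m y g → (∀ i < m, ∀ j < m, G.Adj (y i j) (z i j) ∧ G.Adj (w j) (z i j)) →
    DD m z (fun i _ => x i) → DD m z (fun _ j => w j) → DD m z y → DD m z g →
    ∃ S : Finset V, EP G (2 * s) (x 0) (y 0 0) S ∧ S.card ≤ 4 * s + 1 ∧
      ∀ v ∈ S, (∃ i < m, v = x i) ∨ (∃ j < m, v = w j) ∨ (∃ i < m, ∃ j < m, v = y i j) ∨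
        (∃ i < m, ∃ j < m, v = g i j) ∨ v = z 0 0

/-- Hypotheses for `E7`, `E8`: `s-1` centres, a DI apex function `y`, and functions `u`, `z` with
`u i j` a common neighbour of `x i`, `y i j` and `z i j` a common neighbour of `y i j`, `w j`. -/
structure UZ {V : Type} (G : SimpleGraph V) (s m : ℕ) (x w : ℕ → V) (c : Fin (s - 1) → V)
    (y u z : ℕ → ℕ → V) : Prop where
  grid : Grid G m x w
  cinj : Function.Injective c
  cen : ∀ l, Center G m x w (c l)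
  apex : Apex G m x w y
  uadj : ∀ i < m, ∀ j < m, G.Adj (x i) (u i j) ∧ G.Adj (y i j) (u i j)
  zadj : ∀ i < m, ∀ j < m, G.Adj (w j) (z i j) ∧ G.Adj (y i j) (z i j)
  yc : ∀ l, DD m y (fun _ _ => c l)
  uc : ∀ l, DD m u (fun _ _ => c l)
  zc : ∀ l, DD m z (fun _ _ => c l)
  ux : DD m u (fun i _ => x i)
  uw : DD m u (fun _ j => w j)
  zx : DD m z (fun i _ => x i)
  zw : DD m z (fun _ j => w j)
  uy : DD m u y
  zy : DD m z y
  uz : DD m u z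

/-- kind `Co` from `UZ`. -/
def E7 : Prop :=
  ∀ (s : ℕ), 2 ≤ s → ∀ (V : Type) [Fintype V] (G : SimpleGraph V) (m : ℕ) (x w : ℕ → V)
    (c : Fin (s - 1) → V) (y u z : ℕ → ℕ → V), 40 * s + 100 ≤ m → UZ G s m x w c y u z →
    Has Kind.Co s G

/-- even kinds from `UZ`. -/
def E8 : Prop :=
  ∀ (s : ℕ), 2 ≤ s → ∀ (V : Type) [Fintype V] (G : SimpleGraph V) (m : ℕ) (x w : ℕ → V)
    (c : Fin (s - 1) → V) (y u z : ℕ → ℕ → V), 40 * s + 100 ≤ m → UZ G s m x w c y u z →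
    Has Kind.P s G ∧ Has Kind.Ce s G

/-! ### Grids of edges in many triangles -/

/-- no large grid of edges in at least `s+1` triangles: even kinds -/
def NoG2Grid : Prop :=
  ∀ (s : ℕ), 2 ≤ s → ∃ N, ∀ (V : Type) [Fintype V] (G : SimpleGraph V) (x w : ℕ → V),
    Grid G N x w → (∀ i < N, ∀ j < N, s + 1 ≤ (cn G (x i) (w j)).card) →
    Has Kind.P s G ∧ Has Kind.Ce s G

/-- a large grid of edges in at least `s+1` triangles has no centre: kind `Co` -/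
def NoCenter : Prop :=
  ∀ (s : ℕ), 2 ≤ s → ∃ N, ∀ (V : Type) [Fintype V] (G : SimpleGraph V) (x w : ℕ → V) (c : V),
    Grid G N x w → (∀ i < N, ∀ j < N, s + 1 ≤ (cn G (x i) (w j)).card) →
    Center G N x w c → Has Kind.Co s G

/-- kind `Co`: no large grid of edges in at least 3 triangles, one of which has a heavy edge at
`x i` and its third edge in at least 3 triangles -/
def Mixed : Prop :=
  ∀ (s : ℕ), 2 ≤ s → ∃ N K, ∀ (V : Type) [Fintype V] (G : SimpleGraph V) (x w : ℕ → V),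
    Grid G N x w → (∀ i < N, ∀ j < N, s + 1 ≤ (cn G (x i) (w j)).card ∧
      ∃ y, G.Adj (x i) y ∧ G.Adj (w j) y ∧ K ≤ (cn G (x i) y).card ∧
        3 ≤ (cn G y (w j)).card) →
    Has Kind.Co s G

/-- `G2` has few triangles -/
def SmallG2 (κ : Kind) : Prop :=
  ∀ (s : ℕ), 2 ≤ s → ∀ β : ℝ, 0 < β → ∃ n0 : ℕ,
    ∀ (V : Type) [Fintype V], n0 ≤ Fintype.card V → ∀ G : SimpleGraph V, ¬ Has κ s G →
    ((ot (G2 G s)).card : ℝ) ≤ β * (Fintype.card V : ℝ) ^ 2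

/-- near-extremal graphs: almost `n^2/4` edges are in `Estar` (pure counting) -/
def NearExt : Prop :=
  ∀ (s : ℕ), 1 ≤ s → ∀ ε : ℝ, 0 < ε → ∃ δ : ℝ, 0 < δ ∧ ∀ (V : Type) [Fintype V]
    (G : SimpleGraph V), ((oe G).card : ℝ) ≤ (1 / 2 + δ) * (Fintype.card V : ℝ) ^ 2 →
    ((ot (G2 G s)).card : ℝ) ≤ δ * (Fintype.card V : ℝ) ^ 2 →
    (3 * (s : ℝ) / 2 - δ) * (Fintype.card V : ℝ) ^ 2 ≤ ((ot G).card : ℝ) →
    (1 / 2 - ε) * (Fintype.card V : ℝ) ^ 2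
      ≤ ((univ.filter fun p : V × V => Estar G s p.1 p.2).card : ℝ)

/-- in a large grid of `Estar` edges the common neighbourhood repeats in some row -/
def U2 : Prop :=
  ∀ (s : ℕ), 2 ≤ s → ∀ κ : Kind, κ ≠ Kind.Po → ∃ N, ∀ (V : Type) [Fintype V]
    (G : SimpleGraph V) (x w : ℕ → V), ¬ Has κ s G → Grid G N x w →
    (∀ i < N, ∀ j < N, Estar G s (x i) (w j)) →
    ∃ i < N, ∃ j < N, ∃ j' < N, j ≠ j' ∧ cn G (x i) (w j) = cn G (x i) (w j')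

/-- popular common neighbourhood in a row -/
def U3A : Prop :=
  ∀ (s : ℕ), 2 ≤ s → ∀ κ : Kind, κ ≠ Kind.Po → ∀ β : ℝ, 0 < β → ∃ β' : ℝ, 0 < β' ∧
    ∃ n0 : ℕ, ∀ (V : Type) [Fintype V], n0 ≤ Fintype.card V → ∀ G : SimpleGraph V,
    ¬ Has κ s G → ∀ R : V → V → Prop, (∀ u v, R u v → Estar G s u v) →
    β * (Fintype.card V : ℝ) ^ 2 ≤ ((univ.filter fun p : V × V => R p.1 p.2).card : ℝ) →
    ∃ (x : V) (X : Finset V), β' * (Fintype.card V : ℝ)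
      ≤ ((univ.filter fun w : V => R x w ∧ cn G x w = X).card : ℝ)

/-- popular common neighbourhood -/
def U3 : Prop :=
  ∀ (s : ℕ), 2 ≤ s → ∀ κ : Kind, κ ≠ Kind.Po → ∀ β : ℝ, 0 < β → ∃ η : ℝ, 0 < η ∧
    ∃ n0 : ℕ, ∀ (V : Type) [Fintype V], n0 ≤ Fintype.card V → ∀ G : SimpleGraph V,
    ¬ Has κ s G → ∀ R : V → V → Prop, (∀ u v, R u v → Estar G s u v) →
    β * (Fintype.card V : ℝ) ^ 2 ≤ ((univ.filter fun p : V × V => R p.1 p.2).card : ℝ) →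
    ∃ X : Finset V, η * (Fintype.card V : ℝ) ^ 2
      ≤ ((univ.filter fun p : V × V => R p.1 p.2 ∧ cn G p.1 p.2 = X).card : ℝ)

/-- embedding in an almost complete bipartite graph with `s+1` centres -/
def EmbD : Prop :=
  ∀ (s : ℕ), 2 ≤ s → ∀ η : ℝ, 0 < η → ∃ ε : ℝ, 0 < ε ∧ ∃ n0 : ℕ, ∀ (V : Type) [Fintype V],
    n0 ≤ Fintype.card V → ∀ (G : SimpleGraph V) (A B : Finset V), Disjoint A B →
    ((univ.filter fun p : V × V => p.1 ∈ A ∧ p.2 ∈ B ∧ ¬ G.Adj p.1 p.2).card : ℝ)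
      ≤ ε * (Fintype.card V : ℝ) ^ 2 →
    ∀ D Z : Finset V, D.card = s + 1 → Z ⊆ B → η * (Fintype.card V : ℝ) ≤ (Z.card : ℝ) →
    (∀ z ∈ Z, ∀ d ∈ D, G.Adj z d) →
    (∀ d ∈ D, η * (Fintype.card V : ℝ) ≤ ((A.filter fun a => G.Adj d a).card : ℝ)) →
    (∃ d ∈ D, ∃ d' ∈ D, d ≠ d' ∧
      η * (Fintype.card V : ℝ) ≤ ((A.filter fun a => G.Adj d a ∧ G.Adj d' a).card : ℝ)) →
    Has Kind.P s G ∧ Has Kind.Ce s G ∧ Has Kind.Co s G

/-- uniqueness of the popular common neighbourhood -/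
def U4 : Prop :=
  ∀ (s : ℕ), 2 ≤ s → ∀ κ : Kind, κ ≠ Kind.Po → ∀ η : ℝ, 0 < η → ∃ ε : ℝ, 0 < ε ∧
    ∃ n0 : ℕ, ∀ (V : Type) [Fintype V], n0 ≤ Fintype.card V → ∀ G : SimpleGraph V,
    ¬ Has κ s G → ∀ A : Finset V,
    ((univ.filter fun p : V × V => p.1 ∈ A ∧ p.2 ∉ A ∧ ¬ G.Adj p.1 p.2).card : ℝ)
      ≤ ε * (Fintype.card V : ℝ) ^ 2 →
    ((univ.filter fun p : V × V => G.Adj p.1 p.2 ∧ (p.1 ∈ A ↔ p.2 ∈ A)).card : ℝ)
      ≤ ε * (Fintype.card V : ℝ) ^ 2 →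
    ((univ.filter fun p : V × V => G.Adj p.1 p.2 ∧ ¬ Estar G s p.1 p.2).card : ℝ)
      ≤ ε * (Fintype.card V : ℝ) ^ 2 →
    ∀ X X' : Finset V,
    η * (Fintype.card V : ℝ) ^ 2
      ≤ ((univ.filter fun p : V × V => Estar G s p.1 p.2 ∧ cn G p.1 p.2 = X).card : ℝ) →
    η * (Fintype.card V : ℝ) ^ 2
      ≤ ((univ.filter fun p : V × V => Estar G s p.1 p.2 ∧ cn G p.1 p.2 = X').card : ℝ) →
    X = X'

/-- the vertices outside `X` adjacent to all of `X` and of degree at least `n/10` -/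
def Qs {V : Type} [Fintype V] (G : SimpleGraph V) (X : Finset V) : Finset V :=
  univ.filter fun v => v ∉ X ∧ (∀ x ∈ X, G.Adj v x) ∧
    (Fintype.card V : ℝ) / 10 ≤ ((nb G v).card : ℝ)

/-- the other vertices outside `X` -/
def Us {V : Type} [Fintype V] (G : SimpleGraph V) (X : Finset V) : Finset V :=
  univ.filter fun v => v ∉ X ∧ v ∉ Qs G X

/-- Structure theorem, first part. -/
def ST1 : Prop :=
  ∀ (s : ℕ), 2 ≤ s → ∀ κ : Kind, κ ≠ Kind.Po → ∀ ε : ℝ, 0 < ε → ∃ δ : ℝ, 0 < δ ∧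
    ∃ n0 : ℕ, ∀ (V : Type) [Fintype V], n0 ≤ Fintype.card V → ∀ G : SimpleGraph V,
    ¬ Has κ s G → (3 * (s : ℝ) / 2 - δ) * (Fintype.card V : ℝ) ^ 2 ≤ ((ot G).card : ℝ) →
    ∃ (X : Finset V) (J : SimpleGraph V), X.card = s ∧ J ≤ G ∧ TF J ∧
      (1 / 2 - ε) * (Fintype.card V : ℝ) ^ 2 ≤ ((oe J).card : ℝ) ∧
      ((oe G).card : ℝ) ≤ (1 / 2 + ε) * (Fintype.card V : ℝ) ^ 2 ∧
      (1 / 2 - ε) * (Fintype.card V : ℝ) ^ 2
        ≤ ((univ.filter fun p : V × V => Estar G s p.1 p.2 ∧ cn G p.1 p.2 = X).card : ℝ)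

/-- Structure theorem. -/
def ST : Prop :=
  ∀ (s : ℕ), 2 ≤ s → ∀ κ : Kind, κ ≠ Kind.Po → ∀ ε : ℝ, 0 < ε → ∃ δ : ℝ, 0 < δ ∧
    ∃ n0 : ℕ, ∀ (V : Type) [Fintype V], n0 ≤ Fintype.card V → ∀ G : SimpleGraph V,
    ¬ Has κ s G → (3 * (s : ℝ) / 2 - δ) * (Fintype.card V : ℝ) ^ 2 ≤ ((ot G).card : ℝ) →
    ∃ X : Finset V, X.card = s ∧ ((Us G X).card : ℝ) ≤ ε * (Fintype.card V : ℝ) ∧
      ∀ v, v ∉ X → ((nb G v).card : ℝ) ≤ (1 / 2 + ε) * (Fintype.card V : ℝ)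

/-! ### Exact part -/

/-- `p` and `d` are adjacent with at least `K` common neighbours -/
def lnk {V : Type} [Fintype V] (G : SimpleGraph V) (K : ℕ) (p d : V) : Prop :=
  G.Adj p d ∧ K ≤ (cn G p d).card

/-- common hypotheses: `X` has `s` elements and few vertices are not in `Qs` -/
structure Ctx {V : Type} [Fintype V] (G : SimpleGraph V) (s : ℕ) (X : Finset V) : Prop where
  card : X.card = s
  few : ((Us G X).card : ℝ) ≤ (Fintype.card V : ℝ) / 40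

/-- vertices of `Qs` are linked to all of `X`, and linking through subsets of `X` -/
def LinkX : Prop :=
  ∀ s K : ℕ, 1 ≤ s → ∃ n0 : ℕ, ∀ (V : Type) [Fintype V], n0 ≤ Fintype.card V →
    ∀ (G : SimpleGraph V) (X : Finset V), Ctx G s X →
    (∀ v ∈ Qs G X, ∀ x ∈ X, lnk G K v x) ∧ K ≤ (Qs G X).card ∧
    ∀ (T S : Finset V) (d d' p q : V), T ⊆ X → d ∈ T → d' ∈ T → (d = d' → T = {d}) →
      p ≠ q → p ∉ X → q ∉ X → lnk G K p d → lnk G K q d' → S.card + 8 * s + 10 ≤ K →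
      p ∉ S → q ∉ S → Disjoint S T → ∃ S', EP G (2 * T.card) p q S' ∧ Disjoint S S'

/-- configurations with an extra triangle, odd kinds -/
def COdd : Prop :=
  ∀ s : ℕ, 2 ≤ s → ∃ K n0 : ℕ, ∀ (V : Type) [Fintype V], n0 ≤ Fintype.card V →
    ∀ (G : SimpleGraph V) (X : Finset V), Ctx G s X → ∀ G' : SimpleGraph V,
    G' = within G Xᶜ →
    (∀ p a b d, G'.Adj p a → G'.Adj p b → G'.Adj a b → d ∈ X → lnk G K p d →
      Has Kind.Po s G) ∧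
    (∀ p q r d d', G'.Adj p q → G'.Adj p r → G'.Adj q r → d ∈ X → d' ∈ X → d ≠ d' →
      lnk G K p d → lnk G K q d' → Has Kind.Co s G) ∧
    (∀ p p1 q1 p2 q2, G'.Adj p p1 → G'.Adj p q1 → G'.Adj p1 q1 → G'.Adj p p2 → G'.Adj p q2 →
      G'.Adj p2 q2 → q1 ∈ Qs G X → q2 ∈ Qs G X → q1 ≠ q2 → p1 ≠ p2 → p1 ≠ q2 → p2 ≠ q1 →
      Has Kind.Co s G)

/-- configurations with two extra triangles, even kinds -/
def CEven : Prop :=
  ∀ s : ℕ, 2 ≤ s → ∃ K n0 : ℕ, ∀ (V : Type) [Fintype V], n0 ≤ Fintype.card V →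
    ∀ (G : SimpleGraph V) (X : Finset V), Ctx G s X → ∀ G' : SimpleGraph V,
    G' = within G Xᶜ →
    (∀ v a a' b b', G'.Adj v a → G'.Adj v a' → G'.Adj a a' → G'.Adj v b → G'.Adj v b' →
      G'.Adj b b' → a ∈ Qs G X → b ∈ Qs G X → a ≠ b → a ≠ b' → a' ≠ b → a' ≠ b' →
      Has Kind.P s G ∧ Has Kind.Ce s G) ∧
    (∀ p1 q1 r1 p2 q2 r2 d1 d2, G'.Adj p1 q1 → G'.Adj p1 r1 → G'.Adj q1 r1 → G'.Adj p2 q2 →
      G'.Adj p2 r2 → G'.Adj q2 r2 → Disjoint ({p1, q1, r1} : Finset V) {p2, q2, r2} →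
      q1 ∈ Qs G X → q2 ∈ Qs G X → d1 ∈ X → d2 ∈ X → lnk G K p1 d1 → lnk G K p2 d2 →
      Has Kind.P s G ∧ Has Kind.Ce s G)

/-- odd kinds: all vertices outside `X` are in `Qs` -/
def UOdd : Prop :=
  ∀ s : ℕ, 2 ≤ s → ∀ κ : Kind, κ = Kind.Po ∨ κ = Kind.Co → ∀ C : ℝ, ∃ ε : ℝ, 0 < ε ∧
    ∃ n0 : ℕ, ∀ (V : Type) [Fintype V], n0 ≤ Fintype.card V → ∀ (G : SimpleGraph V)
    (X : Finset V), ¬ Has κ s G → X.card = s →
    ((Us G X).card : ℝ) ≤ ε * (Fintype.card V : ℝ) →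
    (∀ v, v ∉ X → ((nb G v).card : ℝ) ≤ (1 / 2 + ε) * (Fintype.card V : ℝ)) →
    (∀ v, (s : ℝ) * (Fintype.card V : ℝ) - C ≤ ((tr G v).card : ℝ)) → Us G X = ∅

/-- even kinds: all vertices outside `X` are in `Qs`, or there is one special edge -/
def UEvenA : Prop :=
  ∀ s : ℕ, 2 ≤ s → ∀ κ : Kind, κ = Kind.P ∨ κ = Kind.Ce → ∀ C : ℝ, ∃ ε : ℝ, 0 < ε ∧
    ∃ n0 : ℕ, ∀ (V : Type) [Fintype V], n0 ≤ Fintype.card V → ∀ (G : SimpleGraph V)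
    (X : Finset V), ¬ Has κ s G → X.card = s →
    ((Us G X).card : ℝ) ≤ ε * (Fintype.card V : ℝ) →
    (∀ v, v ∉ X → ((nb G v).card : ℝ) ≤ (1 / 2 + ε) * (Fintype.card V : ℝ)) →
    (∀ v, (s : ℝ) * (Fintype.card V : ℝ) - C ≤ ((tr G v).card : ℝ)) →
    ∀ G' : SimpleGraph V, G' = within G Xᶜ → Us G X = ∅ ∨ ∃ p u x0, p ∉ X ∧ x0 ∈ X ∧
      ¬ G.Adj p x0 ∧ G'.Adj p u ∧ ∀ a b c, G'.Adj a b → G'.Adj a c → G'.Adj b c →
        (p = a ∨ p = b ∨ p = c) ∧ (u = a ∨ u = b ∨ u = c)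

/-- even kinds: all vertices outside `X` are in `Qs` -/
def UEven : Prop :=
  ∀ s : ℕ, 2 ≤ s → ∀ κ : Kind, κ = Kind.P ∨ κ = Kind.Ce → ∀ C : ℝ, ∃ ε : ℝ, 0 < ε ∧
    ∃ n0 : ℕ, ∀ (V : Type) [Fintype V], n0 ≤ Fintype.card V → ∀ (G : SimpleGraph V)
    (X : Finset V), ¬ Has κ s G → X.card = s →
    ((Us G X).card : ℝ) ≤ ε * (Fintype.card V : ℝ) →
    (∀ v, v ∉ X → ((nb G v).card : ℝ) ≤ (1 / 2 + ε) * (Fintype.card V : ℝ)) →
    (∀ v, (s : ℝ) * (Fintype.card V : ℝ) - C ≤ ((tr G v).card : ℝ)) →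
    (∀ m : ℝ, m = (Fintype.card V : ℝ) - s →
      6 * ((s : ℝ) * m ^ 2 / 4 + (s : ℝ) * (s - 1) / 2 * m + m / 4) ≤ ((ot G).card : ℝ)) →
    Us G X = ∅

end

end Pool.Agent.Helper61.Tri
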