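import Mathlib

/-!
Statement-level definitions for MP_5b3c48_co (k >= 5).
-/

set_option autoImplicit false

open SimpleGraph

namespace Pool.Agent.Helper61.Tri

/-- The edge blow-up `H^3` of a graph `H`: to the vertices of `H` (kept as `Sum.inl v`) we add one
new vertex `Sum.inr e` for every edge `e` of `H`, joined exactly to the two ends of `e`; thus every
edge `uv` of `H` becomes a triangle `u v w_{uv}` with pairwise distinct new vertices. -/
def blowup {V : Type*} (H : SimpleGraph V) : SimpleGraph (V ⊕ H.edgeSet) where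
  Adj
    | Sum.inl u, Sum.inl v => H.Adj u v
    | Sum.inl u, Sum.inr e => u ∈ e.1
    | Sum.inr e, Sum.inl u => u ∈ e.1
    | Sum.inr _, Sum.inr _ => False
  symm := ⟨by
    rintro (u | e) (v | f) h
    · exact H.adj_symm h
    · exact h
    · exact h
    · exact h⟩
  loopless := ⟨by
    rintro (u | e) h
    · exact H.irrefl h
    · exact h⟩

/-- The join `G + H`: disjoint union together with all edges between the two vertex sets. -/
def joinG {V W : Type*} (G : SimpleGraph V) (H : SimpleGraph W) : SimpleGraph (V ⊕ W) where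
  Adj
    | Sum.inl u, Sum.inl v => G.Adj u v
    | Sum.inr u, Sum.inr v => H.Adj u v
    | Sum.inl _, Sum.inr _ => True
    | Sum.inr _, Sum.inl _ => True
  symm := ⟨by
    rintro (u | e) (v | f) h
    · exact G.adj_symm h
    · exact h
    · exact h
    · exact H.adj_symm h⟩
  loopless := ⟨by
    rintro (u | e) h
    · exact G.irrefl h
    · exact H.irrefl h⟩

/-- `H(n,2,t) = K_{t-1} + T_2(n-t+1)`, where `T_2(m) = K_{⌊m/2⌋,⌈m/2⌉}`. -/
abbrev HGraph (n t : ℕ) :
    SimpleGraph (Fin (t - 1) ⊕ (Fin ((n + 1 - t) / 2) ⊕ Fin ((n + 1 - t + 1) / 2))) :=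
  joinG (completeGraph (Fin (t - 1)))
    (completeBipartiteGraph (Fin ((n + 1 - t) / 2)) (Fin ((n + 1 - t + 1) / 2)))

/-- `G` is isomorphic to the graph `H⁺(n,2,t)` obtained from `H(n,2,t)` by adding one edge `xy`
inside the part of size `⌊(n-t+1)/2⌋` of `T_2(n-t+1)` (the smaller part; if the two parts have the
same size this is either part, up to isomorphism). -/
def IsHPlus (n t : ℕ) (G : SimpleGraph (Fin n)) : Prop :=
  ∃ x y : Fin ((n + 1 - t) / 2), x ≠ y ∧
    Nonempty (G ≃g (HGraph n t ⊔ edge (Sum.inr (Sum.inl x)) (Sum.inr (Sum.inl y))))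

/-- The number of triangles of a finite graph. -/
noncomputable def tri {V : Type*} [Fintype V] (G : SimpleGraph V) : ℕ :=
  Nat.card {s : Finset V // G.IsNClique 3 s}

/-- `G` is the unique extremal graph for `ex(n, K_3, F)`: it contains no copy of `F`, every
`n`-vertex graph `G'` without a copy of `F` has at most as many triangles as `G`, and equality
holds only if `G'` is isomorphic to `G`. -/
def IsUniqueExtremal {W : Type*} (n : ℕ) (F : SimpleGraph W) (G : SimpleGraph (Fin n)) : Prop :=
  F.Free G ∧ ∀ G' : SimpleGraph (Fin n), F.Free G' →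
    tri G' ≤ tri G ∧ (tri G' = tri G → Nonempty (G' ≃g G))

end Pool.Agent.Helper61.Tri
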