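import Pool.Agent.Helper61.Tri.Goals
import Pool.Agent.Helper61.Tri.SDefs

/-!
More goals for MP_5b3c48_co: final count, translation to copies and isomorphisms.
-/

set_option autoImplicit false

open Finset SimpleGraph

namespace Pool.Agent.Helper61.Tri

noncomputable section

open scoped Classical

/-- the number of triangles of `K_s + K_{⌊m/2⌋,⌈m/2⌉}`, `m = n - s` -/
def fodd (s n : ℕ) : ℕ :=
  s * (((n - s) / 2) * ((n - s + 1) / 2)) + s * (s - 1) / 2 * (n - s) + s * (s - 1) * (s - 2) / 6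

/-- the same with one edge added in the part of size `⌊m/2⌋` -/
def feven (s n : ℕ) : ℕ := fodd s n + ((n - s + 1) / 2 + s)

/-- number of triangles for each kind -/
def ff (κ : Kind) (s n : ℕ) : ℕ :=
  match κ with
  | Kind.P => feven s n
  | Kind.Ce => feven s n
  | Kind.Co => fodd s n
  | Kind.Po => fodd s n

/-- `G` is a copy of `K_s + K_{a,b}` -/
def StrOdd {V : Type} (G : SimpleGraph V) (s a b : ℕ) : Prop :=
  ∃ X A B : Finset V, X.card = s ∧ A.card = a ∧ B.card = b ∧ Disjoint X A ∧ Disjoint X B ∧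
    Disjoint A B ∧ (∀ v, v ∈ X ∨ v ∈ A ∨ v ∈ B) ∧
    ∀ u v, G.Adj u v ↔ u ≠ v ∧ (u ∈ X ∨ v ∈ X ∨ (u ∈ A ∧ v ∈ B) ∨ (u ∈ B ∧ v ∈ A))

/-- `G` is a copy of `K_s + K_{a,b}` plus one edge in the part of size `a` -/
def StrEven {V : Type} (G : SimpleGraph V) (s a b : ℕ) : Prop :=
  ∃ X A B : Finset V, X.card = s ∧ A.card = a ∧ B.card = b ∧ Disjoint X A ∧ Disjoint X B ∧
    Disjoint A B ∧ (∀ v, v ∈ X ∨ v ∈ A ∨ v ∈ B) ∧ ∃ p ∈ A, ∃ q ∈ A, p ≠ q ∧
    ∀ u v, G.Adj u v ↔ u ≠ v ∧ (u ∈ X ∨ v ∈ X ∨ (u ∈ A ∧ v ∈ B) ∨ (u ∈ B ∧ v ∈ A) ∨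
      (u = p ∧ v = q) ∨ (u = q ∧ v = p))

/-- structure for each kind -/
def Str {V : Type} (κ : Kind) (G : SimpleGraph V) (s a b : ℕ) : Prop :=
  match κ with
  | Kind.P => StrEven G s a b
  | Kind.Ce => StrEven G s a b
  | Kind.Co => StrOdd G s a b
  | Kind.Po => StrOdd G s a b

/-- counting triangles by the number of vertices in `X` -/
def CountX : Prop :=
  ∀ (V : Type) [Fintype V] (G : SimpleGraph V) (X : Finset V) (s : ℕ), 2 ≤ s → X.card = s →
    ∀ G' : SimpleGraph V, G' = within G Xᶜ →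
    (ot G).card ≤ (ot G').card + 3 * s * (oe G').card + 3 * s * (s - 1) * (Xᶜ).card +
      s * (s - 1) * (s - 2) ∧
    ((ot G).card = (ot G').card + 3 * s * (oe G').card + 3 * s * (s - 1) * (Xᶜ).card +
      s * (s - 1) * (s - 2) → 0 < (Xᶜ).card → ∀ x ∈ X, ∀ v, v ≠ x → G.Adj x v)

/-- final count, odd kinds -/
def FOdd : Prop :=
  ∀ s : ℕ, 2 ≤ s → ∀ κ : Kind, κ = Kind.Po ∨ κ = Kind.Co → ∃ n0 : ℕ, ∀ (V : Type) [Fintype V],
    n0 ≤ Fintype.card V → ∀ (G : SimpleGraph V) (X : Finset V), ¬ Has κ s G → X.card = s →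
    Us G X = ∅ →
    (ot G).card ≤ 6 * fodd s (Fintype.card V) ∧
    ((ot G).card = 6 * fodd s (Fintype.card V) →
      StrOdd G s ((Fintype.card V - s) / 2) ((Fintype.card V - s + 1) / 2))

/-- final count, even kinds -/
def FEven : Prop :=
  ∀ s : ℕ, 2 ≤ s → ∀ κ : Kind, κ = Kind.P ∨ κ = Kind.Ce → ∃ n0 : ℕ, ∀ (V : Type) [Fintype V],
    n0 ≤ Fintype.card V → ∀ (G : SimpleGraph V) (X : Finset V), ¬ Has κ s G → X.card = s →
    Us G X = ∅ →
    (ot G).card ≤ 6 * feven s (Fintype.card V) ∧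
    ((ot G).card = 6 * feven s (Fintype.card V) →
      StrEven G s ((Fintype.card V - s) / 2) ((Fintype.card V - s + 1) / 2))

/-- graphs in which any two triangles share exactly two vertices -/
def Inter2 : Prop :=
  ∀ (V : Type) [Fintype V] (H : SimpleGraph V), 2 ≤ Fintype.card V →
    (∀ S T : Finset V, H.IsNClique 3 S → H.IsNClique 3 T → S ≠ T → (S ∩ T).card = 2) →
    (∃ p q, p ≠ q ∧ ∀ S : Finset V, H.IsNClique 3 S → p ∈ S ∧ q ∈ S) ∨
    (∃ Q : Finset V, Q.card = 4 ∧ ∀ S : Finset V, H.IsNClique 3 S → S ⊆ Q)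

/-- passing to subgraphs of large minimum triangle degree -/
def Reduction : Prop :=
  ∀ (s : ℕ) (κ : Kind) (f : ℕ → ℕ) (Pr : (V : Type) → [Fintype V] → SimpleGraph V → Prop),
    Monotone f →
    (∃ n1 : ℕ, ∀ (V : Type) [Fintype V], n1 ≤ Fintype.card V → ∀ G : SimpleGraph V,
      ¬ Has κ s G → 6 * f (Fintype.card V) ≤ (ot G).card →
      (∀ v, 2 * (f (Fintype.card V) - f (Fintype.card V - 1)) ≤ (tr G v).card) →
      (ot G).card = 6 * f (Fintype.card V) ∧ Pr V G) →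
    ∃ n2 : ℕ, ∀ (V : Type) [Fintype V], n2 ≤ Fintype.card V → ∀ G : SimpleGraph V,
      ¬ Has κ s G → (ot G).card ≤ 6 * f (Fintype.card V) ∧
      ((ot G).card = 6 * f (Fintype.card V) → Pr V G)

/-- triangle counts -/
def TriStr : Prop :=
  ∀ (V : Type) [Fintype V] (G : SimpleGraph V) (s a b : ℕ), 2 ≤ s →
    6 * tri G = (ot G).card ∧
    (StrOdd G s a b → (ot G).card = 6 * (s * (a * b) + s * (s - 1) / 2 * (a + b) +
      s * (s - 1) * (s - 2) / 6)) ∧
    (StrEven G s a b → (ot G).card = 6 * (s * (a * b) + s * (s - 1) / 2 * (a + b) +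
      s * (s - 1) * (s - 2) / 6 + (b + s)))

/-- graphs with the same structure are isomorphic; relation with `HGraph` -/
def IsoStr : Prop :=
  (∀ (V W : Type) [Fintype V] [Fintype W] (G : SimpleGraph V) (H : SimpleGraph W) (s a b : ℕ),
    StrOdd G s a b → StrOdd H s a b → Nonempty (G ≃g H)) ∧
  (∀ (V W : Type) [Fintype V] [Fintype W] (G : SimpleGraph V) (H : SimpleGraph W) (s a b : ℕ),
    StrEven G s a b → StrEven H s a b → Nonempty (G ≃g H)) ∧
  (∀ (s n : ℕ) (G : SimpleGraph (Fin n)), s ≤ n → Nonempty (G ≃g HGraph n (s + 1)) →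
    StrOdd G s ((n - s) / 2) ((n - s + 1) / 2)) ∧
  (∀ (s n : ℕ) (G : SimpleGraph (Fin n)), s ≤ n → IsHPlus n (s + 1) G →
    StrEven G s ((n - s) / 2) ((n - s + 1) / 2))

/-- the extremal graphs contain no copy of the forbidden graphs -/
def FreeStr : Prop :=
  ∀ (V : Type) [Fintype V] (G : SimpleGraph V) (s a b : ℕ), 1 ≤ s →
    (StrOdd G s a b → (blowup (cycleGraph (2 * s + 1))).Free G ∧
      (blowup (pathGraph (2 * s + 2))).Free G) ∧
    (StrEven G s a b → (blowup (cycleGraph (2 * s + 2))).Free G ∧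
      (blowup (pathGraph (2 * s + 3))).Free G)

/-- expanded paths and cycles are copies of blow-ups -/
def Bridge : Prop :=
  ∀ (V : Type) (G : SimpleGraph V) (k : ℕ), 3 ≤ k →
    (ECyc G k → ¬ (blowup (cycleGraph k)).Free G) ∧
    (EPath G k → ¬ (blowup (pathGraph (k + 1))).Free G)

/-- main theorem in terms of kinds -/
def Main : Prop :=
  ∀ s : ℕ, 2 ≤ s → ∀ κ : Kind, ∃ n2 : ℕ, ∀ (V : Type) [Fintype V], n2 ≤ Fintype.card V →
    ∀ G : SimpleGraph V, ¬ Has κ s G → (ot G).card ≤ 6 * ff κ s (Fintype.card V) ∧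
      ((ot G).card = 6 * ff κ s (Fintype.card V) →
        Str κ G s ((Fintype.card V - s) / 2) ((Fintype.card V - s + 1) / 2))

/-- Final statement. -/
def Final : Prop :=
  ∀ k : ℕ, 5 ≤ k → ∃ n0 : ℕ, ∀ n : ℕ, n0 ≤ n → ∀ G : SimpleGraph (Fin n),
    ((Odd k ∧ Nonempty (G ≃g HGraph n ((k - 1) / 2 + 1))) ∨
      (Even k ∧ IsHPlus n ((k - 1) / 2 + 1) G)) →
    IsUniqueExtremal n (blowup (cycleGraph k)) G ∧
    IsUniqueExtremal n (blowup (pathGraph (k + 1))) G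

end

end Pool.Agent.Helper61.Tri
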