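import Pool.Agent.Helper61.Tri.K4Cyc

/-!
MP_5b3c48_co, `k = 4`: counting the triangles of `H⁺(n,2,2)` (after helper45's file
`Results/MP_5b3c48_co/UniquenessFailsK4.lean`).
-/

set_option autoImplicit false

namespace Pool.Agent.Helper61.Tri.K4

open SimpleGraph

/-! ### The concrete graphs -/

/-- `K_1 + (K_{α,β} plus the edge ij inside the part α)`. -/
abbrev Kg (α β : Type) (i j : α) : SimpleGraph (Fin 1 ⊕ (α ⊕ β)) :=
  joinG (completeGraph (Fin 1)) (completeBipartiteGraph α β) ⊔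
    edge (Sum.inr (Sum.inl i)) (Sum.inr (Sum.inl j))

section Kg

variable {α β : Type} {i j : α}

@[simp] lemma Kg_ll (p q : Fin 1) : (Kg α β i j).Adj (Sum.inl p) (Sum.inl q) ↔ False := by
  simp [Kg, joinG, Subsingleton.elim p q]

@[simp] lemma Kg_lr (p : Fin 1) (q : α ⊕ β) :
    (Kg α β i j).Adj (Sum.inl p) (Sum.inr q) ↔ True := by
  simp [Kg, joinG]

@[simp] lemma Kg_rl (p : Fin 1) (q : α ⊕ β) :
    (Kg α β i j).Adj (Sum.inr q) (Sum.inl p) ↔ True := by
  simp [Kg, joinG]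

@[simp] lemma Kg_aa (p q : α) : (Kg α β i j).Adj (Sum.inr (Sum.inl p)) (Sum.inr (Sum.inl q)) ↔
    ((p = i ∧ q = j) ∨ (p = j ∧ q = i)) ∧ p ≠ q := by
  simp [Kg, joinG, edge_adj]

@[simp] lemma Kg_ab (p : α) (q : β) :
    (Kg α β i j).Adj (Sum.inr (Sum.inl p)) (Sum.inr (Sum.inr q)) ↔ True := by
  simp [Kg, joinG]

@[simp] lemma Kg_ba (p : α) (q : β) :
    (Kg α β i j).Adj (Sum.inr (Sum.inr q)) (Sum.inr (Sum.inl p)) ↔ True := by
  simp [Kg, joinG]

@[simp] lemma Kg_bb (p q : β) :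
    (Kg α β i j).Adj (Sum.inr (Sum.inr p)) (Sum.inr (Sum.inr q)) ↔ False := by
  simp [Kg, joinG, edge_adj]

/-- description of the triangles -/
lemma Kg_clique [DecidableEq α] [DecidableEq β] (hij : i ≠ j)
    (S : Finset (Fin 1 ⊕ (α ⊕ β))) :
    (Kg α β i j).IsNClique 3 S ↔
      (∃ p q, S = {Sum.inl 0, Sum.inr (Sum.inl p), Sum.inr (Sum.inr q)}) ∨
      S = {Sum.inl 0, Sum.inr (Sum.inl i), Sum.inr (Sum.inl j)} ∨
      (∃ q, S = {Sum.inr (Sum.inl i), Sum.inr (Sum.inl j), Sum.inr (Sum.inr q)}) := by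
  constructor
  · intro h
    rw [is3Clique_iff] at h
    obtain ⟨a, b, c, hab, hac, hbc, rfl⟩ := h
    have h0 : ∀ x : Fin 1, x = 0 := fun x => Subsingleton.elim x 0
    rcases a with a | a | a <;> rcases b with b | b | b <;> rcases c with c | c | c <;>
      simp only [Kg_ll, Kg_lr, Kg_rl, Kg_aa, Kg_ab, Kg_ba, Kg_bb] at hab hac hbc
    -- remaining cases
    all_goals try rw [h0 a]
    all_goals try rw [h0 b]
    all_goals try rw [h0 c]
    · -- U A A
      right; left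
      rcases hbc.1 with ⟨rfl, rfl⟩ | ⟨rfl, rfl⟩
      · rfl
      · ext w; simp; tauto
    · left; exact ⟨b, c, rfl⟩
    · left; refine ⟨c, b, ?_⟩; ext w; simp; tauto
    · right; left
      rcases hac.1 with ⟨rfl, rfl⟩ | ⟨rfl, rfl⟩
      · ext w; simp; tauto
      · ext w; simp; tauto
    · left; refine ⟨a, c, ?_⟩; ext w; simp; tauto
    · right; left
      rcases hab.1 with ⟨rfl, rfl⟩ | ⟨rfl, rfl⟩
      · ext w; simp; tauto
      · ext w; simp; tauto
    · exfalso
      grind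
    · right; right
      refine ⟨c, ?_⟩
      rcases hab.1 with ⟨rfl, rfl⟩ | ⟨rfl, rfl⟩
      · rfl
      · ext w; simp; tauto
    · left; refine ⟨a, b, ?_⟩; ext w; simp; tauto
    · right; right
      refine ⟨b, ?_⟩
      rcases hac.1 with ⟨rfl, rfl⟩ | ⟨rfl, rfl⟩
      · ext w; simp; tauto
      · ext w; simp; tauto
    · left; refine ⟨c, a, ?_⟩; ext w; simp; tauto
    · left; refine ⟨b, a, ?_⟩; ext w; simp; tauto
    · right; right
      refine ⟨a, ?_⟩
      rcases hbc.1 with ⟨rfl, rfl⟩ | ⟨rfl, rfl⟩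
      · ext w; simp; tauto
      · ext w; simp; tauto
  · rintro (⟨p, q, rfl⟩ | rfl | ⟨q, rfl⟩)
    · rw [is3Clique_triple_iff]
      simp only [Kg_lr, Kg_ab, and_true]
    · rw [is3Clique_triple_iff]
      exact ⟨(Kg_lr _ _).mpr trivial, (Kg_lr _ _).mpr trivial,
        (Kg_aa _ _).mpr ⟨Or.inl ⟨rfl, rfl⟩, hij⟩⟩
    · rw [is3Clique_triple_iff]
      exact ⟨(Kg_aa _ _).mpr ⟨Or.inl ⟨rfl, rfl⟩, hij⟩, (Kg_ab _ _).mpr trivial,
        (Kg_ab _ _).mpr trivial⟩

lemma tri_Kg [Fintype α] [Fintype β] (hij : i ≠ j) :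
    tri (Kg α β i j) = Fintype.card α * Fintype.card β + 1 + Fintype.card β := by
  classical
  let f1 : α × β → Finset (Fin 1 ⊕ (α ⊕ β)) :=
    fun p => {Sum.inl 0, Sum.inr (Sum.inl p.1), Sum.inr (Sum.inr p.2)}
  let f2 : β → Finset (Fin 1 ⊕ (α ⊕ β)) :=
    fun q => {Sum.inr (Sum.inl i), Sum.inr (Sum.inl j), Sum.inr (Sum.inr q)}
  have hf1 : Function.Injective f1 := by
    rintro ⟨p, q⟩ ⟨p', q'⟩ h
    have h1 : Sum.inr (Sum.inl p) ∈ f1 (p', q') := by
      rw [← h]; simp [f1]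
    have h2 : Sum.inr (Sum.inr q) ∈ f1 (p', q') := by
      rw [← h]; simp [f1]
    simp only [f1, Finset.mem_insert, Finset.mem_singleton, reduceCtorEq, false_or,
      Sum.inr.injEq, Sum.inl.injEq, or_false] at h1 h2
    rw [h1, h2]
  have hf2 : Function.Injective f2 := by
    intro q q' h
    have h2 : Sum.inr (Sum.inr q) ∈ f2 q' := by
      rw [← h]; simp [f2]
    simpa [f2] using h2
  have key : (Finset.univ.filter (fun S => (Kg α β i j).IsNClique 3 S)) =
      (Finset.univ.image f1 ∪ {({Sum.inl 0, Sum.inr (Sum.inl i), Sum.inr (Sum.inl j)} :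
        Finset (Fin 1 ⊕ (α ⊕ β)))}) ∪ Finset.univ.image f2 := by
    ext S
    simp only [Finset.mem_filter, Finset.mem_univ, true_and, Finset.mem_union, Finset.mem_image,
      Finset.mem_singleton]
    rw [Kg_clique hij]
    constructor
    · rintro (⟨p, q, rfl⟩ | rfl | ⟨q, rfl⟩)
      · left; left; exact ⟨(p, q), rfl⟩
      · left; right; rfl
      · right; exact ⟨q, rfl⟩
    · rintro ((⟨⟨p, q⟩, rfl⟩ | rfl) | ⟨q, rfl⟩)
      · left; exact ⟨p, q, rfl⟩
      · right; left; rfl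
      · right; right; exact ⟨q, rfl⟩
  have d1 : Disjoint (Finset.univ.image f1) {({Sum.inl 0, Sum.inr (Sum.inl i),
      Sum.inr (Sum.inl j)} : Finset (Fin 1 ⊕ (α ⊕ β)))} := by
    rw [Finset.disjoint_singleton_right]
    intro h
    rw [Finset.mem_image] at h
    obtain ⟨⟨p, q⟩, _, h⟩ := h
    have h2 : Sum.inr (Sum.inr q) ∈ f1 (p, q) := by simp [f1]
    rw [h] at h2
    simp at h2
  have d2 : Disjoint (Finset.univ.image f1 ∪ {({Sum.inl 0, Sum.inr (Sum.inl i),
      Sum.inr (Sum.inl j)} : Finset (Fin 1 ⊕ (α ⊕ β)))}) (Finset.univ.image f2) := by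
    rw [Finset.disjoint_left]
    intro S hS hS2
    simp only [Finset.mem_union, Finset.mem_image, Finset.mem_univ, true_and,
      Finset.mem_singleton] at hS hS2
    obtain ⟨q, rfl⟩ := hS2
    rcases hS with ⟨⟨p, r⟩, h⟩ | h
    · have h2 : Sum.inl 0 ∈ f2 q := by rw [← h]; simp [f1]
      simp [f2] at h2
    · have h2 : Sum.inl 0 ∈ f2 q := by rw [h]; simp
      simp [f2] at h2
  rw [tri, Nat.card_eq_fintype_card, Fintype.card_subtype, key,
    Finset.card_union_of_disjoint d2, Finset.card_union_of_disjoint d1,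
    Finset.card_image_of_injective _ hf1, Finset.card_image_of_injective _ hf2]
  simp


end Kg

/-! ### Transport along isomorphisms -/

lemma tri_congr {V W : Type*} [Fintype V] [Fintype W] {G : SimpleGraph V} {G' : SimpleGraph W}
    (e : G ≃g G') : tri G = tri G' := by
  classical
  refine Nat.card_congr (Equiv.subtypeEquiv (Equiv.finsetCongr e.toEquiv) ?_)
  intro s
  rw [Equiv.finsetCongr_apply]
  constructor
  · intro h
    refine ⟨?_, by rw [Finset.card_map]; exact h.card_eq⟩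
    intro a ha b hb hab
    rw [Finset.mem_coe, Finset.mem_map] at ha hb
    obtain ⟨a', ha', rfl⟩ := ha
    obtain ⟨b', hb', rfl⟩ := hb
    have hne : a' ≠ b' := fun hh => hab (by rw [hh])
    exact e.map_adj_iff.mpr (h.isClique ha' hb' hne)
  · intro h
    refine ⟨?_, by have := h.card_eq; rwa [Finset.card_map] at this⟩
    intro a ha b hb hab
    have ha' : e a ∈ s.map e.toEquiv.toEmbedding := Finset.mem_map.mpr ⟨a, ha, rfl⟩
    have hb' : e b ∈ s.map e.toEquiv.toEmbedding := Finset.mem_map.mpr ⟨b, hb, rfl⟩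
    exact e.map_adj_iff.mp (h.isClique ha' hb' (fun hh => hab (e.injective hh)))

/-- swapping the two parts -/
def swapIso (α β : Type) (i j : β) :
    (joinG (completeGraph (Fin 1)) (completeBipartiteGraph α β) ⊔
      edge (Sum.inr (Sum.inr i)) (Sum.inr (Sum.inr j))) ≃g Kg β α i j where
  toEquiv := Equiv.sumCongr (Equiv.refl _) (Equiv.sumComm α β)
  map_rel_iff' := by
    rintro (a | a | a) (b | b | b) <;> simp [Kg, joinG, edge_adj]


end Pool.Agent.Helper61.Tri.K4
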