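import Pool.Agent.Helper61.Tri.SDefs

/-!
MP_5b3c48_co, `k = 4`: a `C_4^3`-free graph with more triangles than `H⁺(n,2,2)`.
-/

set_option autoImplicit false

open SimpleGraph

namespace Pool.Agent.Helper61.Tri

/-- The graph on `α ⊕ β`: complete bipartite without the edges `p p'`, `q q'`, with the edges
`p q` and `p' q'`. -/
def Hc {α β : Type} (p q : α) (p' q' : β) : SimpleGraph (α ⊕ β) where
  Adj
    | Sum.inl u, Sum.inl v => ((u = p ∧ v = q) ∨ (u = q ∧ v = p)) ∧ u ≠ v
    | Sum.inl u, Sum.inr v => ¬ (u = p ∧ v = p') ∧ ¬ (u = q ∧ v = q')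
    | Sum.inr v, Sum.inl u => ¬ (u = p ∧ v = p') ∧ ¬ (u = q ∧ v = q')
    | Sum.inr u, Sum.inr v => ((u = p' ∧ v = q') ∨ (u = q' ∧ v = p')) ∧ u ≠ v
  symm := ⟨by
    rintro (u | u) (v | v) h
    · exact ⟨by tauto, h.2.symm⟩
    · exact h
    · exact h
    · exact ⟨by tauto, h.2.symm⟩⟩
  loopless := ⟨by
    rintro (u | u) h
    · exact h.2 rfl
    · exact h.2 rfl⟩

section Hc

variable {α β : Type} {p q : α} {p' q' : β}

lemma Hc_ll (u v : α) : (Hc p q p' q').Adj (Sum.inl u) (Sum.inl v) ↔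
    ((u = p ∧ v = q) ∨ (u = q ∧ v = p)) ∧ u ≠ v := Iff.rfl

lemma Hc_lr (u : α) (v : β) : (Hc p q p' q').Adj (Sum.inl u) (Sum.inr v) ↔
    ¬ (u = p ∧ v = p') ∧ ¬ (u = q ∧ v = q') := Iff.rfl

lemma Hc_rl (u : α) (v : β) : (Hc p q p' q').Adj (Sum.inr v) (Sum.inl u) ↔
    ¬ (u = p ∧ v = p') ∧ ¬ (u = q ∧ v = q') := Iff.rfl

lemma Hc_rr (u v : β) : (Hc p q p' q').Adj (Sum.inr u) (Sum.inr v) ↔
    ((u = p' ∧ v = q') ∨ (u = q' ∧ v = p')) ∧ u ≠ v := Iff.rfl

/-- no two triangles share exactly one vertex -/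
lemma Hc_bowtie (x y z y' z' : α ⊕ β)
    (h1 : (Hc p q p' q').Adj x y) (h2 : (Hc p q p' q').Adj x z) (h3 : (Hc p q p' q').Adj y z)
    (h4 : (Hc p q p' q').Adj x y') (h5 : (Hc p q p' q').Adj x z')
    (h6 : (Hc p q p' q').Adj y' z') : y = y' ∨ y = z' ∨ z = y' ∨ z = z' := by
  rcases x with x | x <;> rcases y with y | y <;> rcases z with z | z <;>
    rcases y' with y' | y' <;> rcases z' with z' | z' <;>
    simp only [Hc_ll, Hc_lr, Hc_rl, Hc_rr, Sum.inl.injEq, Sum.inr.injEq, reduceCtorEq,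
      false_or, or_false] at h1 h2 h3 h4 h5 h6 ⊢ <;> grind

end Hc

lemma fin4_edge : ∀ i j : Fin 4, s(i, i + 1) = s(j, j + 1) → i = j := by decide

lemma fin4_a : ∀ i : Fin 4, i ≠ i + 1 + 1 ∧ i ≠ i + 1 ∧ i ≠ i + 2 ∧ i ≠ i + 2 + 1 ∧
    i + 1 ≠ i + 2 ∧ i + 1 ≠ i + 2 + 1 := by decide

/-- four triangles in a cycle -/
lemma c4_of_not_free {V : Type} (G : SimpleGraph V) (h : ¬ (blowup (cycleGraph 4)).Free G) :
    ∃ c a : Fin 4 → V, Function.Injective c ∧ Function.Injective a ∧ (∀ i j, c i ≠ a j) ∧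
      ∀ i, G.Adj (c i) (c (i + 1)) ∧ G.Adj (c i) (a i) ∧ G.Adj (c (i + 1)) (a i) := by
  classical
  have hcont : (blowup (cycleGraph 4)).IsContained G := by
    by_contra h'
    exact h h'
  obtain ⟨f⟩ := hcont
  have hinj : Function.Injective f := f.injective
  have hedge : ∀ i : Fin 4, s(i, i + 1) ∈ (cycleGraph 4).edgeSet := by
    intro i
    rw [mem_edgeSet]; revert i; decide
  refine ⟨fun i => f (Sum.inl i), fun i => f (Sum.inr ⟨s(i, i + 1), hedge i⟩), ?_, ?_, ?_, ?_⟩
  · intro i j hij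
    exact Sum.inl_injective (hinj hij)
  · intro i j hij
    have h1 := Sum.inr_injective (hinj hij)
    have h2 : s(i, i + 1) = s(j, j + 1) := congrArg Subtype.val h1
    exact fin4_edge i j h2
  · intro i j hij
    have := hinj hij
    cases this
  · intro i
    refine ⟨f.toHom.map_adj ?_, f.toHom.map_adj ?_, f.toHom.map_adj ?_⟩
    · have := hedge i
      rw [mem_edgeSet] at this
      exact this
    · change i ∈ s(i, i + 1)
      simp
    · change i + 1 ∈ s(i, i + 1)
      simp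

/-- the join of one vertex with a graph without two triangles sharing exactly one vertex is
`C_4^3`-free -/
lemma join_free {V : Type} (H : SimpleGraph V)
    (hH : ∀ x y z y' z', H.Adj x y → H.Adj x z → H.Adj y z → H.Adj x y' → H.Adj x z' →
      H.Adj y' z' → y = y' ∨ y = z' ∨ z = y' ∨ z = z') :
    (blowup (cycleGraph 4)).Free (joinG (completeGraph (Fin 1)) H) := by
  classical
  by_contra hcon
  obtain ⟨c, a, hc, ha, hca, hadj⟩ := c4_of_not_free (joinG (completeGraph (Fin 1)) H)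
    (fun h => h hcon)
  have h0 : ∀ x : Fin 1, x = 0 := fun x => Subsingleton.elim x 0
  -- every two consecutive triangles contain the apex
  set u : Fin 1 ⊕ V := Sum.inl 0 with hu
  let T : Fin 4 → Finset (Fin 1 ⊕ V) := fun i => {c i, c (i + 1), a i}
  have key : ∀ i, u ∈ T i ∨ u ∈ T (i + 1) := by
    intro i
    by_contra hno
    push Not at hno
    obtain ⟨hn1, hn2⟩ := hno
    simp only [T, Finset.mem_insert, Finset.mem_singleton, not_or] at hn1 hn2
    have inr_of : ∀ w : Fin 1 ⊕ V, u ≠ w → ∃ v, w = Sum.inr v := by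
      rintro (w | w) hw
      · exact absurd (by rw [hu, h0 w]) hw
      · exact ⟨w, rfl⟩
    obtain ⟨x0, e0⟩ := inr_of _ hn1.1
    obtain ⟨x1, e1⟩ := inr_of _ hn1.2.1
    obtain ⟨y0, e2⟩ := inr_of _ hn1.2.2
    obtain ⟨x2, e3⟩ := inr_of _ hn2.2.1
    obtain ⟨y1, e4⟩ := inr_of _ hn2.2.2
    have a1 := hadj i
    have a2 := hadj (i + 1)
    rw [e0, e1, e2] at a1
    rw [e1, e3, e4] at a2
    obtain ⟨n1, n2, -⟩ := fin4_a i
    rcases hH x1 x0 y0 x2 y1 a1.1.symm a1.2.2 a1.2.1 a2.1 a2.2.1 a2.2.2 with h | h | h | h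
    · exact n1 (hc (by rw [e0, e3, h]))
    · exact hca i (i + 1) (by rw [e0, e4, h])
    · exact hca (i + 1 + 1) i (by rw [e2, e3, h])
    · exact n2 (ha (by rw [e2, e4, h]))
  have dis : ∀ i, u ∈ T i → u ∉ T (i + 2) := by
    intro i h1 h2
    simp only [T, Finset.mem_insert, Finset.mem_singleton] at h1 h2
    obtain ⟨-, -, m1, m2, m3, m4⟩ := fin4_a i
    rcases h1 with h1 | h1 | h1 <;> rcases h2 with h2 | h2 | h2
    · exact m1 (hc (h1.symm.trans h2))
    · exact m2 (hc (h1.symm.trans h2))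
    · exact hca _ _ (h1.symm.trans h2)
    · exact m3 (hc (h1.symm.trans h2))
    · exact m4 (hc (h1.symm.trans h2))
    · exact hca _ _ (h1.symm.trans h2)
    · exact hca _ _ (h2.symm.trans h1)
    · exact hca _ _ (h2.symm.trans h1)
    · exact m1 (ha (h1.symm.trans h2))
  have k0 := key 0
  have k1 := key 1
  have k2 := key 2
  have k3 := key 3
  have d0 := dis 0
  have d1 := dis 1
  have s1 : (1 : Fin 4) + 1 = 2 := by decide
  have s2 : (2 : Fin 4) + 1 = 3 := by decide
  have s3 : (3 : Fin 4) + 1 = 0 := by decide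
  have s4 : (1 : Fin 4) + 2 = 3 := by decide
  rw [zero_add] at k0 d0
  rw [s1] at k1
  rw [s2] at k2
  rw [s3] at k3
  rw [s4] at d1
  tauto

/-- number of triangles of the join, lower bound -/
lemma tri_Hc {α β : Type} [Fintype α] [Fintype β] {p q : α} {p' q' : β} (hpq : p ≠ q)
    (hpq' : p' ≠ q') :
    Fintype.card α * Fintype.card β + Fintype.card α + Fintype.card β ≤
      tri (joinG (completeGraph (Fin 1)) (Hc p q p' q')) + 4 := by
  classical
  set G := joinG (completeGraph (Fin 1)) (Hc p q p' q') with hG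
  have gl : ∀ v, G.Adj (Sum.inl 0) (Sum.inr v) := fun v => trivial
  have gr : ∀ u v, G.Adj (Sum.inr u) (Sum.inr v) ↔ (Hc p q p' q').Adj u v := fun u v => Iff.rfl
  let f1 : α × β → Finset (Fin 1 ⊕ (α ⊕ β)) :=
    fun x => {Sum.inl 0, Sum.inr (Sum.inl x.1), Sum.inr (Sum.inr x.2)}
  let f3 : β → Finset (Fin 1 ⊕ (α ⊕ β)) :=
    fun w => {Sum.inr (Sum.inl p), Sum.inr (Sum.inl q), Sum.inr (Sum.inr w)}
  let f4 : α → Finset (Fin 1 ⊕ (α ⊕ β)) :=
    fun v => {Sum.inr (Sum.inl v), Sum.inr (Sum.inr p'), Sum.inr (Sum.inr q')}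
  let t1 : Finset (Fin 1 ⊕ (α ⊕ β)) := {Sum.inl 0, Sum.inr (Sum.inl p), Sum.inr (Sum.inl q)}
  let t2 : Finset (Fin 1 ⊕ (α ⊕ β)) := {Sum.inl 0, Sum.inr (Sum.inr p'), Sum.inr (Sum.inr q')}
  have hf1 : Function.Injective f1 := by
    rintro ⟨u, v⟩ ⟨u', v'⟩ h
    have h1 : Sum.inr (Sum.inl u) ∈ f1 (u', v') := by
      rw [← h]; simp [f1]
    have h2 : Sum.inr (Sum.inr v) ∈ f1 (u', v') := by
      rw [← h]; simp [f1]
    simp only [f1, Finset.mem_insert, Finset.mem_singleton, reduceCtorEq, false_or,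
      Sum.inr.injEq, Sum.inl.injEq, or_false] at h1 h2
    rw [h1, h2]
  have hf3 : Function.Injective f3 := by
    intro w w' h
    have h2 : Sum.inr (Sum.inr w) ∈ f3 w' := by
      rw [← h]; simp [f3]
    simpa [f3] using h2
  have hf4 : Function.Injective f4 := by
    intro w w' h
    have h2 : Sum.inr (Sum.inl w) ∈ f4 w' := by
      rw [← h]; simp [f4]
    simpa [f4] using h2
  let D1 : Finset (α × β) := (Finset.univ.erase (p, p')).erase (q, q')
  let D3 : Finset β := (Finset.univ.erase p').erase q'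
  let D4 : Finset α := (Finset.univ.erase p).erase q
  have c1 : D1.card + 2 = Fintype.card α * Fintype.card β := by
    have h1 : (q, q') ∈ (Finset.univ : Finset (α × β)).erase (p, p') := by
      simp [hpq.symm]
    have h2 := Finset.card_erase_add_one h1
    have h3 := Finset.card_erase_add_one (Finset.mem_univ (p, p'))
    rw [Finset.card_univ, Fintype.card_prod] at h3
    change ((Finset.univ.erase (p, p')).erase (q, q')).card + 2 = _
    omega
  have c3 : D3.card + 2 = Fintype.card β := by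
    have h1 : q' ∈ (Finset.univ : Finset β).erase p' := by
      simp [hpq'.symm]
    have h2 := Finset.card_erase_add_one h1
    have h3 := Finset.card_erase_add_one (Finset.mem_univ p')
    rw [Finset.card_univ] at h3
    change ((Finset.univ.erase p').erase q').card + 2 = _
    omega
  have c4 : D4.card + 2 = Fintype.card α := by
    have h1 : q ∈ (Finset.univ : Finset α).erase p := by
      simp [hpq.symm]
    have h2 := Finset.card_erase_add_one h1
    have h3 := Finset.card_erase_add_one (Finset.mem_univ p)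
    rw [Finset.card_univ] at h3
    change ((Finset.univ.erase p).erase q).card + 2 = _
    omega
  have htri : tri G = (Finset.univ.filter (fun S => G.IsNClique 3 S)).card := by
    rw [tri, Nat.card_eq_fintype_card, Fintype.card_subtype]
  have sub : ((D1.image f1 ∪ {t1, t2}) ∪ (D3.image f3)) ∪ (D4.image f4) ⊆
      Finset.univ.filter (fun S => G.IsNClique 3 S) := by
    intro S hS
    simp only [Finset.mem_union, Finset.mem_image, Finset.mem_insert, Finset.mem_singleton] at hS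
    rw [Finset.mem_filter]
    refine ⟨Finset.mem_univ _, ?_⟩
    rcases hS with ((⟨⟨u, v⟩, hx, rfl⟩ | rfl | rfl) | ⟨w, hw, rfl⟩) | ⟨w, hw, rfl⟩
    · simp only [D1, Finset.mem_erase, Finset.mem_univ, and_true, ne_eq, Prod.mk.injEq] at hx
      rw [is3Clique_triple_iff]
      refine ⟨gl _, gl _, ?_⟩
      rw [gr, Hc_lr]
      exact ⟨hx.2, hx.1⟩
    · rw [is3Clique_triple_iff]
      refine ⟨gl _, gl _, ?_⟩
      rw [gr, Hc_ll]
      exact ⟨Or.inl ⟨rfl, rfl⟩, hpq⟩
    · rw [is3Clique_triple_iff]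
      refine ⟨gl _, gl _, ?_⟩
      rw [gr, Hc_rr]
      exact ⟨Or.inl ⟨rfl, rfl⟩, hpq'⟩
    · simp only [D3, Finset.mem_erase, Finset.mem_univ, and_true] at hw
      rw [is3Clique_triple_iff]
      rw [gr, gr, gr, Hc_ll, Hc_lr, Hc_lr]
      exact ⟨⟨Or.inl ⟨rfl, rfl⟩, hpq⟩, ⟨fun h => hw.2 h.2, fun h => hw.1 h.2⟩,
        ⟨fun h => hw.2 h.2, fun h => hw.1 h.2⟩⟩
    · simp only [D4, Finset.mem_erase, Finset.mem_univ, and_true] at hw
      rw [is3Clique_triple_iff]
      rw [gr, gr, gr, Hc_lr, Hc_lr, Hc_rr]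
      exact ⟨⟨fun h => hw.2 h.1, fun h => hw.1 h.1⟩,
        ⟨fun h => hw.2 h.1, fun h => hw.1 h.1⟩, ⟨Or.inl ⟨rfl, rfl⟩, hpq'⟩⟩
  have mem0 : ∀ S ∈ D1.image f1 ∪ {t1, t2}, Sum.inl 0 ∈ S := by
    intro S hS
    simp only [Finset.mem_union, Finset.mem_image, Finset.mem_insert, Finset.mem_singleton] at hS
    rcases hS with ⟨x, _, rfl⟩ | rfl | rfl
    · simp [f1]
    · simp [t1]
    · simp [t2]
  have d1 : Disjoint (D1.image f1) {t1, t2} := by
    rw [Finset.disjoint_left]
    intro S hS hS2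
    rw [Finset.mem_image] at hS
    obtain ⟨⟨u, v⟩, _, rfl⟩ := hS
    rw [Finset.mem_insert, Finset.mem_singleton] at hS2
    rcases hS2 with h | h
    · have h2 : Sum.inr (Sum.inr v) ∈ f1 (u, v) := by simp [f1]
      rw [h] at h2
      simp [t1] at h2
    · have h2 : Sum.inr (Sum.inl u) ∈ f1 (u, v) := by simp [f1]
      rw [h] at h2
      simp [t2] at h2
  have d2 : Disjoint (D1.image f1 ∪ {t1, t2}) (D3.image f3) := by
    rw [Finset.disjoint_left]
    intro S hS hS2
    have h0 := mem0 S hS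
    rw [Finset.mem_image] at hS2
    obtain ⟨w, _, rfl⟩ := hS2
    simp [f3] at h0
  have d3 : Disjoint ((D1.image f1 ∪ {t1, t2}) ∪ (D3.image f3)) (D4.image f4) := by
    rw [Finset.disjoint_left]
    intro S hS hS2
    rw [Finset.mem_image] at hS2
    obtain ⟨w, hw, rfl⟩ := hS2
    rw [Finset.mem_union] at hS
    rcases hS with hS | hS
    · have h0 := mem0 _ hS
      simp [f4] at h0
    · rw [Finset.mem_image] at hS
      obtain ⟨v, _, h⟩ := hS
      have h2 : Sum.inr (Sum.inr p') ∈ f4 w := by simp [f4]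
      have h3 : Sum.inr (Sum.inr q') ∈ f4 w := by simp [f4]
      rw [← h] at h2 h3
      simp only [f3, Finset.mem_insert, Finset.mem_singleton, reduceCtorEq, false_or,
        Sum.inr.injEq] at h2 h3
      exact hpq' (h2.trans h3.symm)
  have t12 : t1 ≠ t2 := by
    intro h
    have h2 : Sum.inr (Sum.inl p) ∈ t1 := by simp [t1]
    rw [h] at h2
    simp [t2] at h2
  have hcard := Finset.card_le_card sub
  rw [Finset.card_union_of_disjoint d3, Finset.card_union_of_disjoint d2,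
    Finset.card_union_of_disjoint d1, Finset.card_image_of_injective _ hf1,
    Finset.card_image_of_injective _ hf3, Finset.card_image_of_injective _ hf4,
    Finset.card_pair t12] at hcard
  rw [htri]
  omega

end Pool.Agent.Helper61.Tri

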