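import Pool.Agent.Helper61.Tri.Goals2

/-!
MP_5b3c48_co: the graph `H⁺(n,2,t)` with the extra edge in the part of size `⌈(n-t+1)/2⌉`.
-/

set_option autoImplicit false

open Finset SimpleGraph

namespace Pool.Agent.Helper61.Tri

open scoped Classical in
private theorem card_emb' {n : ℕ} {T : Type} {α : Type} [Fintype α] (e : Fin n ≃ T)
    (f : α → T) (hf : Function.Injective f) :
    (univ.filter fun v : Fin n => ∃ i, e v = f i).card = Fintype.card α := by
  rw [← Finset.card_univ (α := α), ← Finset.card_image_of_injective univ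
    (f := fun i => e.symm (f i)) (e.symm.injective.comp hf)]
  congr 1
  ext v
  simp only [Finset.mem_filter, Finset.mem_univ, true_and, Finset.mem_image]
  constructor
  · rintro ⟨i, hi⟩
    exact ⟨i, by rw [← hi]; simp⟩
  · rintro ⟨i, hi⟩
    exact ⟨i, by rw [← hi]; simp⟩

open scoped Classical in
theorem large_str (s n : ℕ) (G : SimpleGraph (Fin n)) (hs : s ≤ n)
    (x y : Fin ((n + 1 - (s + 1) + 1) / 2)) (hxy : x ≠ y)
    (hφ : Nonempty (G ≃g (HGraph n (s + 1) ⊔ edge (Sum.inr (Sum.inr x)) (Sum.inr (Sum.inr y))))) :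
    StrEven G s ((n - s + 1) / 2) ((n - s) / 2) := by
  obtain ⟨φ⟩ := hφ
  have hn : n + 1 - (s + 1) = n - s := by omega
  refine ⟨univ.filter fun v => ∃ i, φ v = Sum.inl i,
    univ.filter fun v => ∃ i, φ v = Sum.inr (Sum.inr i),
    univ.filter fun v => ∃ i, φ v = Sum.inr (Sum.inl i), ?_, ?_, ?_, ?_, ?_, ?_, ?_,
    φ.symm (Sum.inr (Sum.inr x)), ?_, φ.symm (Sum.inr (Sum.inr y)), ?_, ?_, ?_⟩
  · have := card_emb' (α := Fin (s + 1 - 1)) φ.toEquiv (Sum.inl : _ → _) Sum.inl_injective
    simpa using this
  · have := card_emb' (α := Fin ((n + 1 - (s + 1) + 1) / 2)) φ.toEquiv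
      (fun i => Sum.inr (Sum.inr i)) (Sum.inr_injective.comp Sum.inr_injective)
    convert this.trans (by rw [Fintype.card_fin, hn])
    rfl
  · have := card_emb' (α := Fin ((n + 1 - (s + 1)) / 2)) φ.toEquiv
      (fun i => Sum.inr (Sum.inl i)) (Sum.inr_injective.comp Sum.inl_injective)
    convert this.trans (by rw [Fintype.card_fin, hn])
    rfl
  · rw [Finset.disjoint_left]
    intro v h1 h2
    simp only [Finset.mem_filter, Finset.mem_univ, true_and] at h1 h2
    obtain ⟨i, hi⟩ := h1
    obtain ⟨j, hj⟩ := h2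
    rw [hi] at hj; cases hj
  · rw [Finset.disjoint_left]
    intro v h1 h2
    simp only [Finset.mem_filter, Finset.mem_univ, true_and] at h1 h2
    obtain ⟨i, hi⟩ := h1
    obtain ⟨j, hj⟩ := h2
    rw [hi] at hj; cases hj
  · rw [Finset.disjoint_left]
    intro v h1 h2
    simp only [Finset.mem_filter, Finset.mem_univ, true_and] at h1 h2
    obtain ⟨i, hi⟩ := h1
    obtain ⟨j, hj⟩ := h2
    rw [hi] at hj; cases hj
  · intro v
    simp only [Finset.mem_filter, Finset.mem_univ, true_and]
    rcases h : φ v with i | i | i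
    · left; exact ⟨i, rfl⟩
    · right; right; exact ⟨i, rfl⟩
    · right; left; exact ⟨i, rfl⟩
  · simp
  · simp
  · intro h
    have := φ.symm.injective h
    simp at this
    exact hxy this
  · intro u v
    simp only [Finset.mem_filter, Finset.mem_univ, true_and]
    rw [← φ.map_adj_iff, ← φ.injective.ne_iff]
    have e1 : ∀ (w : Fin n) z, w = φ.symm z ↔ φ w = z := by
      intro w z
      constructor
      · rintro rfl; simp
      · rintro rfl; simp
    rw [e1, e1, e1, e1]
    generalize φ u = x
    generalize φ v = y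
    rcases x with i | i | i <;> rcases y with j | j | j <;> simp [joinG, edge_adj] ; tauto

end Pool.Agent.Helper61.Tri

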