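import Pool.Agent.Helper61.Tri.K4Count

set_option autoImplicit false

namespace Pool.Agent.Helper61.Tri.NotExtremalC4

open SimpleGraph Pool.Agent.Helper61.Tri

/-- `G` is (isomorphic to) a graph obtained from `H(n,2,t)` by adding one edge `xy` inside one of
the two parts of `T_2(n-t+1)`. -/
def IsHPlusAny (n t : ℕ) (G : SimpleGraph (Fin n)) : Prop :=
  ∃ x y : Fin ((n + 1 - t) / 2) ⊕ Fin ((n + 1 - t + 1) / 2), x ≠ y ∧ x.isLeft = y.isLeft ∧
    Nonempty (G ≃g (HGraph n t ⊔ edge (Sum.inr x) (Sum.inr y)))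

/-- For every `n ≥ 13` there is a `C_4^3`-free graph on `n` vertices with at least
`⌊(n-1)²/4⌋ + n - 5` triangles, which is more than the number of triangles of every graph
`H⁺(n,2,2)`. -/
theorem result :
    ∀ n : ℕ, 13 ≤ n → ∃ G' : SimpleGraph (Fin n), (blowup (cycleGraph 4)).Free G' ∧
      (n - 1) ^ 2 / 4 + n - 5 ≤ tri G' ∧
      ∀ G : SimpleGraph (Fin n), IsHPlusAny n 2 G → tri G < tri G' := by
  intro n hn
  set a := (n - 1) / 2 with ha
  set b := (n - 1 + 1) / 2 with hb
  have ha6 : 6 ≤ a := by omega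
  have hb6 : 6 ≤ b := by omega
  have hab : a + b = n - 1 := by omega
  have hba : b = a ∨ b = a + 1 := by omega
  have hsq : a * b = (n - 1) ^ 2 / 4 := by
    have h1 : (n - 1) ^ 2 = (a + b) ^ 2 := by rw [hab]
    rw [h1]
    rcases hba with h | h
    · rw [h]
      have : (a + a) ^ 2 = 4 * (a * a) := by ring
      rw [this, Nat.mul_div_cancel_left _ (by norm_num)]
    · rw [h]
      have : (a + (a + 1)) ^ 2 = 1 + 4 * (a * (a + 1)) := by ring
      rw [this, Nat.add_mul_div_left _ _ (by norm_num)]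
      simp
  let i0 : Fin a := ⟨0, by omega⟩
  let i1 : Fin a := ⟨1, by omega⟩
  have hi : i0 ≠ i1 := by simp [i0, i1]
  let j0 : Fin b := ⟨0, by omega⟩
  let j1 : Fin b := ⟨1, by omega⟩
  have hj : j0 ≠ j1 := by simp [j0, j1]
  have hcard : Fintype.card (Fin n) = Fintype.card (Fin 1 ⊕ (Fin a ⊕ Fin b)) := by
    simp; omega
  let e := Fintype.equivOfCardEq hcard
  let K := joinG (completeGraph (Fin 1)) (Hc i0 i1 j0 j1)
  let G' : SimpleGraph (Fin n) := K.comap e
  have eG' : G' ≃g K := SimpleGraph.Iso.comap e _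
  have t1 : a * b + a + b ≤ tri G' + 4 := by
    have := tri_Hc (α := Fin a) (β := Fin b) hi hj
    rw [Fintype.card_fin, Fintype.card_fin] at this
    rw [K4.tri_congr eG']
    exact this
  refine ⟨G', (free_congr_right eG').mpr (join_free _ Hc_bowtie), by omega, ?_⟩
  intro G hG
  have e1 : (n + 1 - 2) / 2 = a := by omega
  have e2 : (n + 1 - 2 + 1) / 2 = b := by omega
  have tG : tri G ≤ a * b + 1 + b := by
    unfold IsHPlusAny HGraph at hG
    rw [e1, e2] at hG
    obtain ⟨x, y, hxy, hside, ⟨φ⟩⟩ := hG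
    rcases x with x | x <;> rcases y with y | y
    · have hxy' : x ≠ y := fun h => hxy (by rw [h])
      have h1 : tri G = tri (K4.Kg (Fin a) (Fin b) x y) := K4.tri_congr φ
      rw [h1, K4.tri_Kg hxy']
      simp only [Fintype.card_fin]
      omega
    · simp at hside
    · simp at hside
    · have hxy' : x ≠ y := fun h => hxy (by rw [h])
      have h1 : tri G = tri (K4.Kg (Fin b) (Fin a) x y) :=
        K4.tri_congr (φ.trans (K4.swapIso (Fin a) (Fin b) x y))
      rw [h1, K4.tri_Kg hxy']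
      simp only [Fintype.card_fin]
      have : b * a = a * b := Nat.mul_comm _ _
      omega
  omega

end Pool.Agent.Helper61.Tri.NotExtremalC4
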